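import Pool.Agent.Helper3.Q1.Laws

/-! Powers of a kernel are kernels. -/

namespace Pool.Agent.Helper9.Q1

open Finset Pool.Agent.Helper3.Q1

theorem take_app {v w : List ℕ} {k : ℕ} (h : v.length = k) : (v ++ w).take k = v := by
  rw [← h]; exact List.take_left

theorem drop_app {v w : List ℕ} {k : ℕ} (h : v.length = k) : (v ++ w).drop k = w := by
  rw [← h]; exact List.drop_left

open Classical in
/-- probability of a concatenation -/
noncomputable def ckap (K K' : Ker) (u : List ℕ) (x : ℤ) : ℝ :=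
  if u.take K.k ∈ K.A then K.κ (u.take K.k) x * K'.κ (u.drop K.k) (nx (u.take K.k) x) else 0

theorem ckap_app (K K' : Ker) {v : List ℕ} (hv : v ∈ K.A) (w : List ℕ) (x : ℤ) :
    ckap K K' (v ++ w) x = K.κ v x * K'.κ w (nx v x) := by
  unfold ckap
  have hl := K.len v hv
  rw [take_app hl, drop_app hl, if_pos hv]

def cA (K K' : Ker) : Finset (List ℕ) := (K.A ×ˢ K'.A).image (fun q => q.1 ++ q.2)

theorem sum_cA (K K' : Ker) (f : List ℕ → ℝ) : ∑ u ∈ cA K K', f u = ∑ v ∈ K.A, ∑ w ∈ K'.A, f (v ++ w) := by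
  unfold cA
  rw [sum_image, sum_product]
  intro q hq q' hq' h
  simp only [coe_product, Set.mem_prod, mem_coe] at hq hq'
  have h1 := K.len q.1 hq.1
  have h2 := K.len q'.1 hq'.1
  have h3 : q.1 ++ q.2 = q'.1 ++ q'.2 := h
  obtain ⟨h4, h5⟩ := List.append_inj h3 (by rw [h1, h2])
  exact Prod.ext h4 h5

noncomputable def comp (K K' : Ker) : Ker where
  k := K.k + K'.k
  hk := by have := K.hk; omega
  A := cA K K'
  len := by
    intro u hu
    unfold cA at hu
    rw [mem_image] at hu
    obtain ⟨q, hq, rfl⟩ := hu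
    rw [mem_product] at hq
    rw [List.length_append, K.len _ hq.1, K'.len _ hq.2]
  ge1 := by
    intro u hu a ha
    unfold cA at hu
    rw [mem_image] at hu
    obtain ⟨q, hq, rfl⟩ := hu
    rw [mem_product] at hq
    rcases List.mem_append.mp ha with h | h
    · exact K.ge1 _ hq.1 a h
    · exact K'.ge1 _ hq.2 a h
  κ := ckap K K'
  nonneg := by
    intro u x
    unfold ckap
    split_ifs
    · exact mul_nonneg (K.nonneg _ _) (K'.nonneg _ _)
    · exact le_rfl
  supp := by
    intro u hu x h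
    unfold cA at hu
    rw [mem_image] at hu
    obtain ⟨q, hq, rfl⟩ := hu
    rw [mem_product] at hq
    rw [ckap_app K K' hq.1] at h
    have h1 : K.κ q.1 x ≠ 0 := fun h' => h (by rw [h', zero_mul])
    have h2 : K'.κ q.2 (nx q.1 x) ≠ 0 := fun h' => h (by rw [h', mul_zero])
    have h3 := K.supp _ hq.1 x h1
    have h4 := K'.supp _ hq.2 _ h2
    have h5 : cp (q.1 ++ q.2) x := cp_append.mpr ⟨h3.1, h4.1⟩
    refine ⟨h5, ?_⟩
    rw [nx_append h5]
    exact h4.2
  per := by
    intro u x
    unfold ckap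
    by_cases hu : u.take K.k ∈ K.A
    · rw [if_pos hu, if_pos hu]
      have h1 : K.κ (u.take K.k) (x + 3 ^ (K.k + K'.k + 1)) = K.κ (u.take K.k) x :=
        (Ker.κ_pr K _).le (by omega) x
      rw [h1]
      by_cases h0 : K.κ (u.take K.k) x = 0
      · rw [h0, zero_mul, zero_mul]
      · congr 1
        have h2 := nx_shift (K.supp _ hu x h0).1 (3 ^ (K'.k + 1))
        rw [K.len _ hu] at h2
        rw [show x + 3 ^ (K.k + K'.k + 1) = x + 3 ^ K.k * 3 ^ (K'.k + 1) by ring, h2, mul_comm (2 ^ (u.take K.k).sum : ℤ)]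
        exact (Ker.κ_pr K' _).mul _ _
    · rw [if_neg hu, if_neg hu]
  one := by
    intro x hx
    rw [sum_cA, ← K.one x hx]
    apply sum_congr rfl
    intro v hv
    by_cases h0 : K.κ v x = 0
    · rw [h0]
      apply sum_eq_zero
      intro w _
      rw [ckap_app K K' hv, h0, zero_mul]
    · have h1 := K'.one _ (K.supp v hv x h0).2
      rw [sum_congr rfl (fun w _ => ckap_app K K' hv w x), ← mul_sum, h1, mul_one]
  c0 := K.c0 + K'.c0
  c0pos := add_pos K.c0pos K'.c0pos
  ent := by
    intro x hx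
    rw [sum_cA]
    have h1 : ∀ v ∈ K.A, Real.negMulLog (K.κ v x) + K.κ v x * K'.c0 ≤ ∑ w ∈ K'.A, Real.negMulLog (ckap K K' (v ++ w) x) := by
      intro v hv
      rw [sum_congr rfl (fun w _ => by rw [ckap_app K K' hv w x, Real.negMulLog_mul])]
      rw [sum_add_distrib, ← sum_mul, ← mul_sum]
      by_cases h0 : K.κ v x = 0
      · rw [h0]; simp
      · have hu := (K.supp v hv x h0).2
        rw [K'.one _ hu, one_mul]
        have := mul_le_mul_of_nonneg_left (K'.ent _ hu) (K.nonneg v x)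
        linarith
    refine le_trans ?_ (sum_le_sum h1)
    rw [sum_add_distrib, ← sum_mul, K.one x hx, one_mul]
    have := K.ent x hx
    linarith

theorem comp_P (K K' : Ker) (f : ℤ → ℝ) (x : ℤ) : (comp K K').P f x = K.P (K'.P f) x := by
  unfold Ker.P
  change ∑ u ∈ cA K K', ckap K K' u x * f (nx u x) = _
  rw [sum_cA]
  apply sum_congr rfl
  intro v hv
  by_cases h0 : K.κ v x = 0
  · rw [h0, zero_mul]
    apply sum_eq_zero
    intro w _
    rw [ckap_app K K' hv, h0, zero_mul, zero_mul]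
  · rw [mul_sum]
    apply sum_congr rfl
    intro w hw
    rw [ckap_app K K' hv]
    by_cases h1 : K'.κ w (nx v x) = 0
    · rw [h1]; ring
    · have h5 : cp (v ++ w) x := cp_append.mpr ⟨(K.supp v hv x h0).1, (K'.supp w hw _ h1).1⟩
      rw [nx_append h5]; ring

theorem comp_stat (K K' : Ker) {p : ℕ → ℤ → ℝ} (h : Stat K p) (h' : Stat K' p) : Stat (comp K K') p := by
  refine ⟨h.1, ?_⟩
  funext n z
  change EE p (n + (K.k + K'.k)) ((comp K K').P (ic n z)) = p n z
  rw [show (comp K K').P (ic n z) = K.P (K'.P (ic n z)) from funext (comp_P K K' _),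
    show n + (K.k + K'.k) = (n + K'.k) + K.k by ring, ← K.EE_push (K'.P_pr (ic_pr n z)), h.2]
  exact congrFun (congrFun h'.2 n) z

theorem exists_pow (K : Ker) (D : ℕ) (hD : ∀ w ∈ K.A, w.sum ≤ D) (l : ℕ) (hl : 1 ≤ l) :
    ∃ K' : Ker, K'.k = K.k * l ∧ K'.c0 = l * K.c0 ∧ (∀ w ∈ K'.A, w.sum ≤ D * l) ∧ ∀ p, Stat K p → Stat K' p := by
  induction l, hl using Nat.le_induction with
  | base => exact ⟨K, by simp, by simp, by simpa using hD, fun p h => h⟩
  | succ l hl ih =>
    obtain ⟨K', h1, h2, h3, h4⟩ := ih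
    refine ⟨comp K K', ?_, ?_, ?_, fun p h => comp_stat K K' h (h4 p h)⟩
    · change K.k + K'.k = _
      rw [h1]; ring
    · change K.c0 + K'.c0 = _
      rw [h2]; push_cast; ring
    · intro u hu
      change u ∈ cA K K' at hu
      unfold cA at hu
      rw [mem_image] at hu
      obtain ⟨q, hq, rfl⟩ := hu
      rw [mem_product] at hq
      rw [List.sum_append]
      have a1 := hD _ hq.1
      have a2 := h3 _ hq.2
      calc q.1.sum + q.2.sum ≤ D + D * l := Nat.add_le_add a1 a2
        _ = D * (l + 1) := by ring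

end Pool.Agent.Helper9.Q1
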