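import Pool.Agent.Helper9.Q1.Stage
import Pool.Agent.Helper9.Q1.Pow

/-! (I): a positive proportion of cells with almost full entropy. -/

namespace Pool.Agent.Helper9.Q1

open Finset Pool.Agent.Helper3.Q1

/-- `log` grows slower than linearly -/
theorem exists_l (c C : ℝ) (hc : 0 < c) (D i0 : ℕ) :
    ∃ l : ℕ, 1 ≤ l ∧ i0 ≤ l ∧ Real.log (((D * l + 1 : ℕ) : ℝ) * 3) + C < c * l := by
  have h1 : Filter.Tendsto (fun l : ℕ => (((D * l + 1 : ℕ) : ℝ) * 3 + 1)) Filter.atTop Filter.atTop ∨ D = 0 := by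
    rcases Nat.eq_zero_or_pos D with h | h
    · right; exact h
    · left
      apply Filter.tendsto_atTop_mono _ tendsto_natCast_atTop_atTop
      intro l
      have : (l : ℝ) ≤ ((D * l + 1 : ℕ) : ℝ) := by
        have : l ≤ D * l + 1 := by nlinarith
        exact_mod_cast this
      have h2 : (0 : ℝ) ≤ l := Nat.cast_nonneg l
      linarith
  -- use `log x ≤ ε x` eventually
  have hD : (0 : ℝ) < 12 * D + 12 := by positivity
  set e : ℝ := c / (12 * D + 12) with he
  have hepos : 0 < e := by positivity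
  have h2 : ∀ᶠ x : ℝ in Filter.atTop, Real.log x ≤ e * x := by
    have h3 := Real.isLittleO_log_id_atTop.def hepos
    filter_upwards [h3, Filter.eventually_ge_atTop (1 : ℝ)] with x hx hx1
    have h4 : 0 ≤ Real.log x := Real.log_nonneg hx1
    simp only [id, Real.norm_eq_abs, abs_of_nonneg h4, abs_of_nonneg (by linarith : (0 : ℝ) ≤ x)] at hx
    exact hx
  have h5 : ∀ᶠ l : ℕ in Filter.atTop, Real.log ((l : ℝ) + 1) ≤ e * ((l : ℝ) + 1) := by
    have : Filter.Tendsto (fun l : ℕ => (l : ℝ) + 1) Filter.atTop Filter.atTop :=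
      Filter.tendsto_atTop_add_const_right _ _ tendsto_natCast_atTop_atTop
    exact this.eventually h2
  have h6 : ∀ᶠ l : ℕ in Filter.atTop, (Real.log (3 * (D + 1)) + C + 1 + e) * (12 / (11 * c)) ≤ (l : ℝ) :=
    tendsto_natCast_atTop_atTop.eventually_ge_atTop _
  obtain ⟨l, hl5, hl6, hl1, hli⟩ := (h5.and (h6.and ((Filter.eventually_ge_atTop 1).and (Filter.eventually_ge_atTop i0)))).exists
  refine ⟨l, hl1, hli, ?_⟩
  have hl0 : (0 : ℝ) ≤ l := Nat.cast_nonneg l
  have h7 : Real.log (((D * l + 1 : ℕ) : ℝ) * 3) ≤ Real.log ((l : ℝ) + 1) + Real.log (3 * (D + 1)) := by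
    rw [← Real.log_mul (by positivity) (by positivity)]
    apply Real.log_le_log (by positivity)
    push_cast
    have hD0 : (0 : ℝ) ≤ D := Nat.cast_nonneg D
    nlinarith
  have h8 : e ≤ c / 12 := by
    rw [he]
    apply div_le_div_of_nonneg_left hc.le (by norm_num)
    have hD0 : (0 : ℝ) ≤ D := Nat.cast_nonneg D
    linarith
  have h9 : (Real.log (3 * (D + 1)) + C + 1 + e) ≤ (l : ℝ) * (11 * c / 12) := by
    have h10 : 0 < 11 * c / 12 := by positivity
    have h11 := mul_le_mul_of_nonneg_right hl6 h10.le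
    have h12 : (Real.log (3 * (D + 1)) + C + 1 + e) * (12 / (11 * c)) * (11 * c / 12) = Real.log (3 * (D + 1)) + C + 1 + e := by
      field_simp
    linarith
  have h13 : e * ((l : ℝ) + 1) ≤ c / 12 * l + e := by nlinarith
  nlinarith

theorem partI (hCL : CL) (hS : StepS) : PartI := by
  intro K p hst
  have hp := hst.1
  obtain ⟨D, hD1, hD⟩ : ∃ D : ℕ, 1 ≤ D ∧ ∀ w ∈ K.A, w.sum ≤ D :=
    ⟨K.A.sup List.sum + 1, by omega, fun w hw => (Finset.le_sup (f := List.sum) hw).trans (Nat.le_succ _)⟩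
  have hk1 : (1 : ℝ) ≤ K.k := by exact_mod_cast K.hk
  have hlog3 : 0 < Real.log 3 := Real.log_pos (by norm_num)
  have hlg : 0 < (K.k : ℝ) * Real.log 3 := by positivity
  have hc0 := K.c0pos
  have hDpos : (0 : ℝ) < D := by exact_mod_cast hD1
  obtain ⟨c1, hc1⟩ : ∃ c1 : ℝ, c1 = K.c0 / (2 * D) := ⟨_, rfl⟩
  have hc1pos : 0 < c1 := by rw [hc1]; positivity
  refine ⟨c1 / (4 * (K.k * Real.log 3)), by positivity, ?_⟩
  intro N hN δ hδ
  obtain ⟨η, hη, hC⟩ := hCL K.k (K.k * N) (Nat.le_mul_of_pos_right _ hN) (c1 / 2) δ (half_pos hc1pos) hδ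
  -- entropy of `N` blocks
  obtain ⟨f, hf⟩ : ∃ f : ℕ → ℝ, ∀ i, f i = hh p (K.k * (i + N)) - hh p (K.k * i) := ⟨_, fun i => rfl⟩
  have hf0 : ∀ i, 0 ≤ f i := by
    intro i
    rw [hf, show K.k * (i + N) = K.k * i + K.k * N by ring]
    exact hh_mono hp _ _
  have hfa : Antitone f := by
    apply antitone_nat_of_succ_le
    intro i
    rw [hf, hf]
    have h := hS K p hp (K.k * i) (K.k * (i + N)) (Nat.mul_le_mul_left _ (Nat.le_add_right _ _))
    rw [hst.2] at h
    rw [show K.k * (i + 1 + N) = K.k * (i + N) + K.k by ring, show K.k * (i + 1) = K.k * i + K.k by ring]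
    exact h
  obtain ⟨ε, hε⟩ : ∃ ε : ℝ, ε = η * c1 / (4 * (K.k * Real.log 3)) := ⟨_, rfl⟩
  have hεpos : 0 < ε := by rw [hε]; positivity
  obtain ⟨i0, hi0⟩ : ∃ i0 : ℕ, ∀ i, i0 ≤ i → ∀ j, f i - f j ≤ ε := by
    have hbdd : BddBelow (Set.range f) := ⟨0, by rintro _ ⟨i, rfl⟩; exact hf0 i⟩
    obtain ⟨i0, h0⟩ := exists_lt_of_ciInf_lt (show (⨅ i, f i) < (⨅ i, f i) + ε by linarith)
    refine ⟨i0, fun i hi j => ?_⟩
    have h1 := hfa hi
    have h2 := ciInf_le hbdd j
    linarith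
  -- choice of the power
  obtain ⟨l, hl1, hli, hl⟩ := exists_l (K.c0 / 2) (Real.log (3 ^ (K.k * i0))) (by positivity) D i0
  obtain ⟨K', hk', hc0', hD', hst'⟩ := exists_pow K D hD l hl1
  have st := hst' p hst
  obtain ⟨Θ, hΘ⟩ := exists_th (K.k * (D * l) + K.k * N)
  set Col : Finset (ℕ × ℕ) := range (D * l + 1) ×ˢ range 3 with hCol
  have hcol : ∀ w ∈ K'.A, ∀ y, col w y ∈ Col := by
    intro w hw y
    rw [hCol, mem_product, mem_range, mem_range]
    refine ⟨Nat.lt_succ_of_le (hD' w hw), ?_⟩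
    have h1 := Int.emod_lt_of_pos (nx w y) (by norm_num : (0 : ℤ) < 3)
    have h2 := col_toNat w y
    omega
  obtain ⟨G, hG⟩ : ∃ G : ℕ → ℝ, ∀ i, G i = ∑ y ∈ range (3 ^ (K'.k + 1)), p K'.k (y : ℤ) * Hs K' Θ Col (K.k * i) y := ⟨_, fun i => rfl⟩
  have hG1 : l * K.c0 ≤ G (D * l) := by
    rw [hG, ← hc0']
    calc K'.c0 = ∑ y ∈ range (3 ^ (K'.k + 1)), p K'.k (y : ℤ) * K'.c0 := by rw [← sum_mul, total hp, one_mul]
      _ ≤ _ := by
        apply sum_le_sum
        intro y _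
        by_cases hy : (3 : ℤ) ∣ (y : ℤ)
        · rw [p_zero hp _ hy, zero_mul, zero_mul]
        · apply mul_le_mul_of_nonneg_left _ (hp.nonneg _ _)
          exact Hs_ge hΘ hD' (Nat.le_mul_of_pos_left _ K.hk) (Nat.le_add_right _ _) Col (fun w hw => hcol w hw y) hy
  have hG0 : G i0 ≤ Real.log (((D * l + 1 : ℕ) : ℝ) * 3) + Real.log (3 ^ (K.k * i0)) := by
    rw [hG]
    have hcard : (Col.card : ℝ) = ((D * l + 1 : ℕ) : ℝ) * 3 := by
      rw [hCol, card_product, card_range, card_range]; push_cast; ring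
    calc ∑ y ∈ range (3 ^ (K'.k + 1)), p K'.k (y : ℤ) * Hs K' Θ Col (K.k * i0) y
        ≤ ∑ y ∈ range (3 ^ (K'.k + 1)), p K'.k (y : ℤ) * Real.log (Col.card * 3 ^ (K.k * i0)) := by
          apply sum_le_sum
          intro y _
          by_cases hy : (3 : ℤ) ∣ (y : ℤ)
          · rw [p_zero hp _ hy, zero_mul, zero_mul]
          · exact mul_le_mul_of_nonneg_left (Hs_le Col y (fun w hw => hcol w hw y) _ hy) (hp.nonneg _ _)
      _ = Real.log (Col.card * 3 ^ (K.k * i0)) := by rw [← sum_mul, total hp, one_mul]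
      _ = _ := by
          rw [hcard, Real.log_mul (by positivity) (by positivity)]
  obtain ⟨i, hi1, hi2, hi3⟩ : ∃ i, i0 ≤ i ∧ i < D * l ∧ c1 ≤ G (i + 1) - G i := by
    by_contra hno
    push Not at hno
    have h1 : ∀ j, i0 + j ≤ D * l → G (i0 + j) ≤ G i0 + j * c1 := by
      intro j
      induction j with
      | zero => intro _; simp
      | succ j ih =>
        intro hj
        have h2 := ih (by omega)
        have h3 := hno (i0 + j) (by omega) (by omega)
        push_cast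
        rw [show i0 + (j + 1) = i0 + j + 1 by ring]
        linarith
    have hle : i0 ≤ D * l := hli.trans (Nat.le_mul_of_pos_left _ hD1)
    obtain ⟨j, hj⟩ := Nat.exists_eq_add_of_le hle
    have h4 := h1 j hj.ge
    rw [← hj] at h4
    have h5 : (j : ℝ) * c1 ≤ ((D * l : ℕ) : ℝ) * c1 := by
      apply mul_le_mul_of_nonneg_right _ hc1pos.le
      exact_mod_cast (by omega : j ≤ D * l)
    have h6 : ((D * l : ℕ) : ℝ) * c1 = K.c0 / 2 * l := by
      rw [hc1]; push_cast; field_simp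
    have h7 : (l : ℝ) * K.c0 = K.c0 / 2 * l + K.c0 / 2 * l := by ring
    linarith
  -- the estimate
  have hst1 := stage st hΘ Col hcol (s := K.k * i) (r := K.k * N) (k := K.k) (Nat.le_mul_of_pos_right _ hN)
    (by
      apply Nat.add_le_add_right
      exact Nat.mul_le_mul_left _ hi2.le) (ω := c1 / 2) (δ := δ) (η := η) (by positivity) hη hC
  have hGi : G (i + 1) - G i = ∑ y ∈ range (3 ^ (K'.k + 1)), p K'.k (y : ℤ) * (Hs K' Θ Col (K.k * i + K.k) y - Hs K' Θ Col (K.k * i) y) := by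
    rw [hG, hG, ← sum_sub_distrib]
    apply sum_congr rfl
    intro y _
    rw [show K.k * (i + 1) = K.k * i + K.k by ring]
    ring
  rw [← hGi, show K.k * i + K.k * N = K.k * (i + N) by ring, ← hf i, hk',
    show K.k * l + K.k * i + K.k * N = K.k * ((l + i) + N) by ring, show K.k * l + K.k * i = K.k * (l + i) by ring, ← hf (l + i)] at hst1
  have h8 := hi0 i hi1 (l + i)
  have h9 : K.k * Real.log 3 / η * (f i - f (l + i)) ≤ c1 / 4 := by
    have h10 := mul_le_mul_of_nonneg_left h8 (by positivity : 0 ≤ K.k * Real.log 3 / η)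
    have h11 : K.k * Real.log 3 / η * ε = c1 / 4 := by
      rw [hε]; field_simp
    linarith
  have hE : (((K.k * N : ℕ) : ℝ) - K.k) * Real.log 3 - δ = ((N : ℝ) - 1) * K.k * Real.log 3 - δ := by
    push_cast; ring
  rw [hE] at hst1
  refine ⟨l + i, good p (K.k * (l + i)) (K.k * N) (((N : ℝ) - 1) * K.k * Real.log 3 - δ), ?_, ?_, ?_⟩
  · unfold good; exact filter_subset _ _
  · rw [div_le_iff₀ (by positivity)]
    nlinarith
  · intro x hx
    unfold good at hx
    rw [mem_filter] at hx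
    exact hx.2

end Pool.Agent.Helper9.Q1
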