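import Pool.Agent.Helper3.Q1.ANdefs
import Pool.Agent.Helper89.Q1.Kern

/-! Part B of (AN3): the average of the low part. -/

namespace Pool.Agent.Helper9.Q1

open Finset Pool.Agent.Helper3.Q1 Pool.Agent.Helper3.TD

open Classical in
/-- words with small total exponent -/
noncomputable def LS (k : ℕ) : Finset (List ℕ) := ((range (2 * k + 2)).filter (fun d => 5 * d < 9 * k)).biUnion (comps k)

open Classical in
/-- the low part -/
noncomputable def LowF (k : ℕ) (x : ℤ) : ℝ :=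
  ∑ A ∈ LS k, if cp A x then (3 : ℝ) ^ (k + 1) / 2 ^ (2 * (k + 1)) * (2 * k + 2) else 0

theorem card_comps (n : ℕ) : ∀ d, (comps n d).card ≤ 2 ^ d := by
  induction n with
  | zero =>
    intro d
    cases d with
    | zero => simp [comps]
    | succ d => simp [comps]
  | succ n ih =>
    intro d
    have h1 : (comps (n + 1) d).card ≤ ∑ a ∈ range d, 2 ^ (d - (a + 1)) := by
      unfold comps
      refine card_biUnion_le.trans (sum_le_sum fun a _ => ?_)
      exact card_image_le.trans (ih _)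
    refine h1.trans ?_
    have h2 : ∑ a ∈ range d, 2 ^ (d - (a + 1)) = ∑ a ∈ range d, 2 ^ a := by
      rw [← sum_range_reflect]
      apply sum_congr rfl
      intro a ha
      rw [mem_range] at ha
      congr 1
      omega
    rw [h2]
    have h3 : ∑ a ∈ range d, 2 ^ a < 2 ^ d := by
      have := Nat.geomSum_lt (m := 2) (n := d) (s := range d) (le_refl 2) (fun k hk => mem_range.mp hk)
      exact this
    exact h3.le

theorem card_LS (k : ℕ) : ((LS k).card : ℝ) ≤ 2 * (2 : ℝ) ^ (9 * (k : ℝ) / 5) := by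
  classical
  have h1 : (LS k).card ≤ ∑ d ∈ range (9 * k / 5 + 1), 2 ^ d := by
    unfold LS
    refine card_biUnion_le.trans ?_
    refine (sum_le_sum fun d _ => card_comps k d).trans ?_
    apply sum_le_sum_of_subset
    intro d hd
    rw [mem_filter] at hd
    rw [mem_range]
    omega
  have h2 : ∑ d ∈ range (9 * k / 5 + 1), 2 ^ d < 2 ^ (9 * k / 5 + 1) :=
    Nat.geomSum_lt (m := 2) (le_refl 2) (fun k hk => mem_range.mp hk)
  have h3 : ((LS k).card : ℝ) ≤ (2 : ℝ) ^ (9 * k / 5 + 1) := by exact_mod_cast h1.trans h2.le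
  refine h3.trans ?_
  rw [pow_succ, mul_comm]
  apply mul_le_mul_of_nonneg_left _ (by norm_num)
  rw [← Real.rpow_natCast]
  apply Real.rpow_le_rpow_of_exponent_le (by norm_num)
  rw [le_div_iff₀ (by norm_num)]
  have : 9 * k / 5 * 5 ≤ 9 * k := Nat.div_mul_le_self _ _
  exact_mod_cast this

theorem length_LS {k : ℕ} {A : List ℕ} (h : A ∈ LS k) : A.length = k := by
  classical
  unfold LS at h
  rw [mem_biUnion] at h
  obtain ⟨d, _, hA⟩ := h
  exact ((Pool.Agent.Helper89.Q1.mem_comps k d A).mp hA).1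

theorem count_cp {k : ℕ} {A : List ℕ} (h : A.length = k) :
    ∑ x ∈ range (3 ^ (k + 1)), (open Classical in if cp A (x : ℤ) then (1 : ℝ) else 0) ≤ 3 := by
  classical
  rw [← sum_filter, sum_const, nsmul_eq_mul, mul_one]
  have h1 : ((range (3 ^ (k + 1))).filter (fun x : ℕ => cp A (x : ℤ))).card ≤ (range 3).card := by
    apply card_le_card_of_injOn (fun x => x / 3 ^ k)
    · intro x hx
      have hx' := (mem_filter.mp (mem_coe.mp hx)).1
      rw [mem_range] at hx'
      simp only [coe_range, Set.mem_Iio]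
      apply Nat.div_lt_of_lt_mul
      rw [pow_succ] at hx'
      exact hx'
    · intro x hx y hy hxy
      have hx' := (mem_filter.mp (mem_coe.mp hx)).2
      have hy' := (mem_filter.mp (mem_coe.mp hy)).2
      simp only at hxy
      unfold cp at hx' hy'
      rw [h] at hx' hy'
      have h2 := dvd_sub hx' hy'
      rw [show 2 ^ A.sum * (x : ℤ) - cw A - (2 ^ A.sum * (y : ℤ) - cw A) = 2 ^ A.sum * ((x : ℤ) - y) by ring] at h2
      have h3 : (3 : ℤ) ^ k ∣ (x : ℤ) - y := by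
        apply IsCoprime.dvd_of_dvd_mul_left _ h2
        apply IsCoprime.pow
        norm_num [Int.isCoprime_iff_gcd_eq_one]
      have h4 : (x : ℤ) % (3 ^ k : ℕ) = (y : ℤ) % (3 ^ k : ℕ) := by
        apply Int.emod_eq_emod_iff_emod_sub_eq_zero.mpr
        apply Int.emod_eq_zero_of_dvd
        exact_mod_cast h3
      have h5 : x % 3 ^ k = y % 3 ^ k := by exact_mod_cast h4
      rw [← Nat.mod_add_div x (3 ^ k), ← Nat.mod_add_div y (3 ^ k), h5, hxy]
  rw [card_range] at h1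
  exact_mod_cast h1

theorem av_LowF (k : ℕ) : Av (k + 1) (LowF k) ≤ 100 * (k + 1) * (2 : ℝ) ^ (-(k : ℝ) / 5) := by
  classical
  unfold Av LowF
  rw [sum_comm]
  have h1 : ∀ A ∈ LS k, ∑ x ∈ range (3 ^ (k + 1)), (if cp A (x : ℤ) then (3 : ℝ) ^ (k + 1) / 2 ^ (2 * (k + 1)) * (2 * k + 2) else 0) ≤
      (3 : ℝ) ^ (k + 1) / 2 ^ (2 * (k + 1)) * (2 * k + 2) * 3 := by
    intro A hA
    have h2 := count_cp (length_LS hA)
    have h3 : ∑ x ∈ range (3 ^ (k + 1)), (if cp A (x : ℤ) then (3 : ℝ) ^ (k + 1) / 2 ^ (2 * (k + 1)) * (2 * k + 2) else 0) =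
        (3 : ℝ) ^ (k + 1) / 2 ^ (2 * (k + 1)) * (2 * k + 2) * ∑ x ∈ range (3 ^ (k + 1)), (if cp A (x : ℤ) then (1 : ℝ) else 0) := by
      rw [mul_sum]
      apply sum_congr rfl
      intro x _
      split_ifs <;> simp
    rw [h3]
    exact mul_le_mul_of_nonneg_left h2 (by positivity)
  have h4 := sum_le_sum h1
  rw [sum_const, nsmul_eq_mul] at h4
  rw [div_le_iff₀ (by positivity)]
  refine h4.trans ?_
  have h5 := mul_le_mul_of_nonneg_right (card_LS k) (by positivity : 0 ≤ (3 : ℝ) ^ (k + 1) / 2 ^ (2 * (k + 1)) * (2 * k + 2) * 3)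
  refine h5.trans ?_
  have h6 : (2 : ℝ) ^ (9 * (k : ℝ) / 5) = 2 ^ (2 * k) * (2 : ℝ) ^ (-(k : ℝ) / 5) := by
    rw [← Real.rpow_natCast, ← Real.rpow_add (by norm_num)]
    congr 1
    push_cast
    ring
  rw [h6]
  have h7 : (0 : ℝ) < (2 : ℝ) ^ (-(k : ℝ) / 5) := by positivity
  have h8 : 2 * (2 ^ (2 * k) * (2 : ℝ) ^ (-(k : ℝ) / 5)) * ((3 : ℝ) ^ (k + 1) / 2 ^ (2 * (k + 1)) * (2 * k + 2) * 3) =
      3 * (k + 1) * (2 : ℝ) ^ (-(k : ℝ) / 5) * 3 ^ (k + 1) := by
    rw [show 2 * (k + 1) = 2 * k + 2 by ring, pow_add (2 : ℝ) (2 * k) 2]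
    field_simp
  rw [h8]
  have h9 : (0 : ℝ) ≤ (k + 1) * (2 : ℝ) ^ (-(k : ℝ) / 5) * 3 ^ (k + 1) := by positivity
  nlinarith

end Pool.Agent.Helper9.Q1
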