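import Pool.Agent.Helper9.Q1.LawB

/-! One step growth of the entropy of a stationary law. -/

namespace Pool.Agent.Helper9.Q1

open Finset Pool.Agent.Helper3.Q1

/-- `Θ w y` is `2 ^ (-d) (e - e % 3) / 3` modulo `3 ^ n`, `e` the end point -/
def IsTh (n : ℕ) (Θ : List ℕ → ℤ → ℕ) : Prop :=
  ∀ w y, (3 : ℤ) ^ (n + 1) ∣ nx w y - (nx w y % 3 + 3 * 2 ^ w.sum * (Θ w y : ℤ))

theorem exists_th (n : ℕ) : ∃ Θ : List ℕ → ℤ → ℕ, IsTh n Θ := by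
  have key : ∀ (d : ℕ) (e : ℤ), ∃ t : ℕ, (3 : ℤ) ^ (n + 1) ∣ e - (e % 3 + 3 * 2 ^ d * (t : ℤ)) := by
    intro d e
    have hc : IsCoprime ((2 : ℤ) ^ d) (3 ^ n) := by
      apply IsCoprime.pow
      norm_num [Int.isCoprime_iff_gcd_eq_one]
    obtain ⟨a, b, hab⟩ := hc
    have h3 : (0 : ℤ) < 3 ^ n := by positivity
    refine ⟨((e / 3 * a) % 3 ^ n).toNat, ?_⟩
    rw [Int.toNat_of_nonneg (Int.emod_nonneg _ h3.ne')]
    have h1 : e - e % 3 = 3 * (e / 3) := by have := Int.mul_ediv_add_emod e 3; linarith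
    have h2 : (e / 3 * a) % 3 ^ n = e / 3 * a - 3 ^ n * (e / 3 * a / 3 ^ n) := Int.emod_def _ _
    rw [h2, pow_succ]
    refine ⟨e / 3 * b + 2 ^ d * (e / 3 * a / 3 ^ n), ?_⟩
    have h4 : e - (e % 3 + 3 * 2 ^ d * (e / 3 * a - 3 ^ n * (e / 3 * a / 3 ^ n))) =
      (e - e % 3) - 3 * 2 ^ d * (e / 3 * a - 3 ^ n * (e / 3 * a / 3 ^ n)) := by ring
    rw [h4, h1]
    linear_combination (-3 * (e / 3)) * hab
  choose f hf using key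
  exact ⟨fun w y => f w.sum (nx w y), fun w y => hf _ _⟩

/-- total exponent and residue of the end point -/
def col (w : List ℕ) (y : ℤ) : ℕ × ℕ := (w.sum, (nx w y % 3).toNat)

noncomputable def RR (K : Ker) (Θ : List ℕ → ℤ → ℕ) (s r : ℕ) (y : ℤ) (c : ℕ × ℕ) (t : ℕ) (τ : ZMod (3 ^ r)) : ℝ :=
  ∑ w ∈ K.A, if (col w y = c ∧ Θ w y % 3 ^ s = t) ∧ ((Θ w y / 3 ^ s : ℕ) : ZMod (3 ^ r)) = τ then K.κ w y else 0

noncomputable def QQ (p : ℕ → ℤ → ℝ) (k s r : ℕ) (y : ℤ) (b : ℕ) (v : ZMod (3 ^ r)) : ℝ :=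
  p (k + s + r) (y + 3 ^ (k + 1) * ((b : ℤ) + 3 ^ s * (v.val : ℤ)))

def gS (c : ℕ × ℕ) (t b : ℕ) : ℤ := (c.2 : ℤ) + 3 * 2 ^ c.1 * ((t : ℤ) + b)

variable {K : Ker} {p : ℕ → ℤ → ℝ} {Θ : List ℕ → ℤ → ℕ}

theorem RR_nonneg (s r : ℕ) (y : ℤ) (c : ℕ × ℕ) (t : ℕ) (τ : ZMod (3 ^ r)) : 0 ≤ RR K Θ s r y c t τ := by
  unfold RR
  apply sum_nonneg
  intro w _
  split_ifs
  · exact K.nonneg w y
  · exact le_rfl

theorem QQ_nonneg (hp : IsLaw p) (k s r : ℕ) (y : ℤ) (b : ℕ) (v : ZMod (3 ^ r)) : 0 ≤ QQ p k s r y b v := hp.nonneg _ _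

theorem sum_RR_mul (s r : ℕ) (y : ℤ) (c : ℕ × ℕ) (t : ℕ) (ψ : ZMod (3 ^ r) → ℝ) :
    ∑ τ, RR K Θ s r y c t τ * ψ τ =
      ∑ w ∈ K.A, if col w y = c ∧ Θ w y % 3 ^ s = t then K.κ w y * ψ ((Θ w y / 3 ^ s : ℕ) : ZMod (3 ^ r)) else 0 := by
  unfold RR
  simp only [sum_mul]
  rw [sum_comm]
  apply sum_congr rfl
  intro w _
  by_cases h : col w y = c ∧ Θ w y % 3 ^ s = t
  · rw [if_pos h, sum_eq_single ((Θ w y / 3 ^ s : ℕ) : ZMod (3 ^ r))]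
    · rw [if_pos ⟨h, rfl⟩]
    · intro τ _ hne
      rw [if_neg (fun h' => hne h'.2.symm), zero_mul]
    · intro h'; exact absurd (mem_univ _) h'
  · rw [if_neg h]
    apply sum_eq_zero
    intro τ _
    rw [if_neg (fun h' => h h'.1), zero_mul]

theorem sum_RR (s r : ℕ) (y : ℤ) (c : ℕ × ℕ) (t : ℕ) :
    ∑ τ, RR K Θ s r y c t τ = ∑ w ∈ K.A, if col w y = c ∧ Θ w y % 3 ^ s = t then K.κ w y else 0 := by
  have := sum_RR_mul (K := K) (Θ := Θ) s r y c t (fun _ => 1)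
  simpa using this

theorem sum_QQ (hp : IsLaw p) (k s r : ℕ) (y : ℤ) (b : ℕ) :
    ∑ v, QQ p k s r y b v = p (k + s) (y + 3 ^ (k + 1) * (b : ℤ)) := by
  unfold QQ
  rw [sumZ (fun v => p (k + s + r) (y + 3 ^ (k + 1) * ((b : ℤ) + 3 ^ s * (v : ℤ)))), p_sum hp (k + s) r]
  apply sum_congr rfl
  intro v _
  congr 1
  ring

theorem ent_QQ (hp : IsLaw p) (k s r : ℕ) (y : ℤ) (b : ℕ) :
    ent (QQ p k s r y b) = nent p (k + s) r (y + 3 ^ (k + 1) * (b : ℤ)) := by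
  unfold ent nent
  rw [sum_QQ hp]
  unfold QQ
  rw [sumZ (fun v => LL (p (k + s + r) (y + 3 ^ (k + 1) * ((b : ℤ) + 3 ^ s * (v : ℤ)))) (p (k + s) (y + 3 ^ (k + 1) * (b : ℤ))))]
  apply sum_congr rfl
  intro v _
  congr 2
  ring

theorem cv_sum_mul {r : ℕ} (R Q φ : ZMod (3 ^ r) → ℝ) :
    ∑ z, cv R Q z * φ z = ∑ τ, R τ * ∑ v, Q v * φ (v + τ) := by
  unfold cv
  simp only [sum_mul]
  rw [sum_comm]
  apply sum_congr rfl
  intro τ _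
  rw [mul_sum]
  rw [← Equiv.sum_comp (Equiv.addRight τ) (fun z => R τ * Q (z - τ) * φ z)]
  apply sum_congr rfl
  intro v _
  simp [mul_assoc]

theorem sum_cv {r : ℕ} (R Q : ZMod (3 ^ r) → ℝ) : ∑ z, cv R Q z = (∑ τ, R τ) * ∑ v, Q v := by
  have := cv_sum_mul R Q (fun _ => 1)
  simp only [mul_one] at this
  rw [this, sum_mul]

theorem κ_per (w : List ℕ) (x : ℤ) (m : ℕ) : K.κ w (x + 3 ^ (K.k + 1) * (m : ℤ)) = K.κ w x := by
  induction m with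
  | zero => simp
  | succ m ih =>
    push_cast
    rw [show x + 3 ^ (K.k + 1) * ((m : ℤ) + 1) = x + 3 ^ (K.k + 1) * (m : ℤ) + 3 ^ (K.k + 1) by ring, K.per, ih]

theorem stat_expand (hst : Stat K p) {n : ℕ} (hΘ : IsTh n Θ) {m : ℕ} (hm : m ≤ n) (X : ℤ) :
    p m X = ∑ y ∈ range (3 ^ (K.k + 1)), ∑ u ∈ range (3 ^ m), p (K.k + m) ((y : ℤ) + 3 ^ (K.k + 1) * (u : ℤ)) *
      ∑ w ∈ K.A, K.κ w (y : ℤ) * ic m X (nx w (y : ℤ) % 3 + 3 * 2 ^ w.sum * ((Θ w (y : ℤ) : ℤ) + u)) := by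
  have hp := hst.1
  have h := congrFun (congrFun hst.2 m) X
  rw [← h]
  unfold Ker.push EE Ker.P
  rw [show 3 ^ (m + K.k + 1) = 3 ^ (K.k + 1) * 3 ^ m by ring, sum_split _ _ (by positivity)]
  apply sum_congr rfl
  intro y _
  apply sum_congr rfl
  intro u _
  push_cast
  rw [add_comm m K.k]
  by_cases hy : (3 : ℤ) ∣ (y : ℤ)
  · rw [p_zero hp]
    · simp
    · apply dvd_add hy
      rw [pow_succ]
      exact Dvd.dvd.mul_right (Dvd.intro_left _ rfl) _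
  congr 1
  apply sum_congr rfl
  intro w hw
  rw [κ_per]
  by_cases hk : K.κ w (y : ℤ) = 0
  · rw [hk]; simp
  have hc := (K.supp w hw y hk).1
  have hl := K.len w hw
  have e1 : nx w ((y : ℤ) + 3 ^ (K.k + 1) * (u : ℤ)) = nx w y + 2 ^ w.sum * (3 * u) := by
    rw [← nx_shift hc]
    congr 1
    rw [hl]
    ring
  rw [e1]
  congr 1
  apply ic_congr
  have h1 := hΘ w y
  have h2 : (3 : ℤ) ^ (m + 1) ∣ 3 ^ (n + 1) := pow_dvd_pow _ (by omega)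
  have h3 := dvd_trans h2 h1
  rw [show nx w (y : ℤ) + 2 ^ w.sum * (3 * (u : ℤ)) - (nx w (y : ℤ) % 3 + 3 * 2 ^ w.sum * ((Θ w (y : ℤ) : ℤ) + (u : ℤ))) =
    nx w (y : ℤ) - (nx w (y : ℤ) % 3 + 3 * 2 ^ w.sum * (Θ w (y : ℤ) : ℤ)) by ring]
  exact h3

theorem col_toNat (w : List ℕ) (y : ℤ) : ((col w y).2 : ℤ) = nx w y % 3 := by
  unfold col
  exact Int.toNat_of_nonneg (Int.emod_nonneg _ (by norm_num))

theorem sum_group (Col : Finset (ℕ × ℕ)) (y : ℤ) (hcol : ∀ w ∈ K.A, col w y ∈ Col) (s : ℕ)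
    (F : List ℕ → ℕ × ℕ → ℕ → ℝ) :
    ∑ c ∈ Col, ∑ t ∈ range (3 ^ s), ∑ w ∈ K.A, (if col w y = c ∧ Θ w y % 3 ^ s = t then F w c t else 0) =
      ∑ w ∈ K.A, F w (col w y) (Θ w y % 3 ^ s) := by
  have h1 : ∀ c ∈ Col, ∑ t ∈ range (3 ^ s), ∑ w ∈ K.A, (if col w y = c ∧ Θ w y % 3 ^ s = t then F w c t else 0) =
      ∑ w ∈ K.A, if col w y = c then F w c (Θ w y % 3 ^ s) else 0 := by
    intro c _
    rw [sum_comm]
    apply sum_congr rfl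
    intro w _
    by_cases h : col w y = c
    · rw [if_pos h, sum_eq_single (Θ w y % 3 ^ s)]
      · rw [if_pos ⟨h, rfl⟩]
      · intro t _ hne
        rw [if_neg (fun h' => hne h'.2.symm)]
      · intro h'
        exact absurd (mem_range.mpr (Nat.mod_lt _ (by positivity))) h'
    · rw [if_neg h]
      apply sum_eq_zero
      intro t _
      rw [if_neg (fun h' => h h'.1)]
  rw [sum_congr rfl h1, sum_comm]
  apply sum_congr rfl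
  intro w hw
  rw [sum_eq_single (col w y)]
  · rw [if_pos rfl]
  · intro c _ hne
    rw [if_neg (fun h' => hne h'.symm)]
  · intro h'
    exact absurd (hcol w hw) h'

/-- fine cells -/
theorem fine (hst : Stat K p) {n : ℕ} (hΘ : IsTh n Θ) (Col : Finset (ℕ × ℕ))
    (hcol : ∀ w ∈ K.A, ∀ y, col w y ∈ Col) {s r : ℕ} (hm : s + r ≤ n) (X : ℤ) :
    p (s + r) X = ∑ y ∈ range (3 ^ (K.k + 1)), ∑ b ∈ range (3 ^ s), ∑ c ∈ Col, ∑ t ∈ range (3 ^ s),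
      ∑ z : ZMod (3 ^ r), cv (RR K Θ s r (y : ℤ) c t) (QQ p K.k s r (y : ℤ) b) z *
        ic (s + r) X (gS c t b + 3 ^ (s + 1) * 2 ^ c.1 * (z.val : ℤ)) := by
  rw [stat_expand hst hΘ hm X]
  apply sum_congr rfl
  intro y _
  rw [show 3 ^ (s + r) = 3 ^ s * 3 ^ r by ring, sum_split _ _ (by positivity)]
  apply sum_congr rfl
  intro b _
  have h1 : ∀ c ∈ Col, ∀ t ∈ range (3 ^ s), ∑ z : ZMod (3 ^ r), cv (RR K Θ s r (y : ℤ) c t) (QQ p K.k s r (y : ℤ) b) z *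
        ic (s + r) X (gS c t b + 3 ^ (s + 1) * 2 ^ c.1 * (z.val : ℤ)) =
      ∑ w ∈ K.A, if col w y = c ∧ Θ w y % 3 ^ s = t then K.κ w y * ∑ v, QQ p K.k s r (y : ℤ) b v *
        ic (s + r) X (gS c t b + 3 ^ (s + 1) * 2 ^ c.1 * ((v + ((Θ w y / 3 ^ s : ℕ) : ZMod (3 ^ r))).val : ℤ)) else 0 := by
    intro c _ t _
    rw [cv_sum_mul, sum_RR_mul]
  rw [sum_congr rfl (fun c hc => sum_congr rfl (h1 c hc)),
    sum_group (F := fun w c t => K.κ w y * ∑ v, QQ p K.k s r (y : ℤ) b v *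
        ic (s + r) X (gS c t b + 3 ^ (s + 1) * 2 ^ c.1 * ((v + ((Θ w y / 3 ^ s : ℕ) : ZMod (3 ^ r))).val : ℤ)))
      Col y (fun w hw => hcol w hw y) s]
  simp only [mul_sum]
  rw [sum_comm]
  apply sum_congr rfl
  intro w _
  rw [← sumZ (fun v : ℕ => p (K.k + (s + r)) ((y : ℤ) + 3 ^ (K.k + 1) * ((b + 3 ^ s * v : ℕ) : ℤ)) *
    (K.κ w (y : ℤ) * ic (s + r) X (nx w (y : ℤ) % 3 + 3 * 2 ^ w.sum * ((Θ w (y : ℤ) : ℤ) + ((b + 3 ^ s * v : ℕ) : ℤ)))))]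
  apply sum_congr rfl
  intro v _
  unfold QQ
  push_cast
  rw [add_assoc K.k s r]
  have e1 : ic (s + r) X (nx w (y : ℤ) % 3 + 3 * 2 ^ w.sum * ((Θ w (y : ℤ) : ℤ) + ((b : ℤ) + 3 ^ s * (v.val : ℤ)))) =
      ic (s + r) X (gS (col w y) (Θ w y % 3 ^ s) b + 3 ^ (s + 1) * 2 ^ (col w y).1 *
        ((v + ((Θ w y / 3 ^ s : ℕ) : ZMod (3 ^ r))).val : ℤ)) := by
    apply ic_congr
    unfold gS
    rw [col_toNat]
    have h2 : (((v + ((Θ w y / 3 ^ s : ℕ) : ZMod (3 ^ r))).val : ℤ)) = ((v.val : ℤ) + (Θ w y / 3 ^ s : ℕ)) -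
        3 ^ r * (((v.val : ℤ) + (Θ w y / 3 ^ s : ℕ)) / 3 ^ r) := by
      have h3 : (v + ((Θ w y / 3 ^ s : ℕ) : ZMod (3 ^ r))) = (((v.val + Θ w y / 3 ^ s : ℕ)) : ZMod (3 ^ r)) := by
        push_cast
        rw [ZMod.natCast_zmod_val]
      rw [h3, ZMod.val_natCast]
      push_cast
      rw [Int.emod_def]
    rw [h2]
    have h4 : (Θ w (y : ℤ) : ℤ) = ((Θ w y % 3 ^ s : ℕ) : ℤ) + 3 ^ s * ((Θ w y / 3 ^ s : ℕ) : ℤ) := by
      have := Nat.mod_add_div (Θ w y) (3 ^ s)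
      exact_mod_cast this.symm
    rw [h4]
    have h5 : (col w (y : ℤ)).1 = w.sum := rfl
    rw [h5]
    generalize ((v.val : ℤ) + ((Θ w y / 3 ^ s : ℕ) : ℤ)) / 3 ^ r = q
    refine ⟨2 ^ w.sum * q, ?_⟩
    push_cast
    ring
  rw [e1]
  ring

/-- coarse cells -/
theorem coarse (hst : Stat K p) {n : ℕ} (hΘ : IsTh n Θ) (Col : Finset (ℕ × ℕ))
    (hcol : ∀ w ∈ K.A, ∀ y, col w y ∈ Col) {s r : ℕ} (hm : s + r ≤ n) (X : ℤ) :
    p s X = ∑ y ∈ range (3 ^ (K.k + 1)), ∑ b ∈ range (3 ^ s), ∑ c ∈ Col, ∑ t ∈ range (3 ^ s),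
      ((∑ τ, RR K Θ s r (y : ℤ) c t τ) * ∑ v, QQ p K.k s r (y : ℤ) b v) * ic s X (gS c t b) := by
  rw [stat_expand hst hΘ (le_trans (Nat.le_add_right s r) hm) X]
  apply sum_congr rfl
  intro y _
  apply sum_congr rfl
  intro b _
  have h1 : ∀ c ∈ Col, ∀ t ∈ range (3 ^ s), ((∑ τ, RR K Θ s r (y : ℤ) c t τ) * ∑ v, QQ p K.k s r (y : ℤ) b v) * ic s X (gS c t b) =
      ∑ w ∈ K.A, if col w y = c ∧ Θ w y % 3 ^ s = t then
        p (K.k + s) ((y : ℤ) + 3 ^ (K.k + 1) * (b : ℤ)) * (K.κ w y * ic s X (gS c t b)) else 0 := by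
    intro c _ t _
    rw [sum_RR, sum_QQ hst.1, sum_mul, sum_mul]
    apply sum_congr rfl
    intro w _
    split_ifs
    · ring
    · ring
  rw [sum_congr rfl (fun c hc => sum_congr rfl (h1 c hc)),
    sum_group (F := fun w c t => p (K.k + s) ((y : ℤ) + 3 ^ (K.k + 1) * (b : ℤ)) * (K.κ w y * ic s X (gS c t b)))
      Col y (fun w hw => hcol w hw y) s, mul_sum]
  apply sum_congr rfl
  intro w _
  congr 2
  apply ic_congr
  unfold gS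
  rw [col_toNat]
  have h4 : (Θ w (y : ℤ) : ℤ) = ((Θ w y % 3 ^ s : ℕ) : ℤ) + 3 ^ s * ((Θ w y / 3 ^ s : ℕ) : ℤ) := by
    have := Nat.mod_add_div (Θ w y) (3 ^ s)
    exact_mod_cast this.symm
  rw [h4]
  have h5 : (col w (y : ℤ)).1 = w.sum := rfl
  rw [h5]
  refine ⟨2 ^ w.sum * ((Θ w y / 3 ^ s : ℕ) : ℤ), ?_⟩
  ring

/-- summation over the cells of the sum of a fine part -/
theorem cell_LL {s r : ℕ} (g : ℤ) (d : ℕ) (F : ZMod (3 ^ r) → ℝ) (M : ℝ) :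
    ∑ X ∈ range (3 ^ (s + r + 1)), LL (∑ z, F z * ic (s + r) (X : ℤ) (g + 3 ^ (s + 1) * 2 ^ d * (z.val : ℤ)))
      (M * ic s (X : ℤ) g) = ∑ z, LL (F z) M := by
  have h1 : ∀ X ∈ range (3 ^ (s + r + 1)), LL (∑ z, F z * ic (s + r) (X : ℤ) (g + 3 ^ (s + 1) * 2 ^ d * (z.val : ℤ)))
      (M * ic s (X : ℤ) g) = ∑ z, ic (s + r) (X : ℤ) (g + 3 ^ (s + 1) * 2 ^ d * (z.val : ℤ)) * LL (F z) M := by
    intro X _
    by_cases h : ∃ z : ZMod (3 ^ r), (3 : ℤ) ^ (s + r + 1) ∣ g + 3 ^ (s + 1) * 2 ^ d * (z.val : ℤ) - (X : ℤ)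
    · obtain ⟨z0, hz0⟩ := h
      have huniq : ∀ z : ZMod (3 ^ r), z ≠ z0 → ic (s + r) (X : ℤ) (g + 3 ^ (s + 1) * 2 ^ d * (z.val : ℤ)) = 0 := by
        intro z hz
        apply ic_eq_zero
        intro hd
        apply hz
        have h2 := dvd_sub hd hz0
        rw [show g + 3 ^ (s + 1) * 2 ^ d * (z.val : ℤ) - (X : ℤ) - (g + 3 ^ (s + 1) * 2 ^ d * (z0.val : ℤ) - (X : ℤ)) =
          3 ^ (s + 1) * (2 ^ d * ((z.val : ℤ) - z0.val)) by ring, show s + r + 1 = (s + 1) + r by ring, pow_add] at h2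
        have h3 := (mul_dvd_mul_iff_left (by positivity : (3 : ℤ) ^ (s + 1) ≠ 0)).mp h2
        have h4 : (3 : ℤ) ^ r ∣ (z.val : ℤ) - z0.val := by
          apply IsCoprime.dvd_of_dvd_mul_left _ h3
          apply IsCoprime.pow
          norm_num [Int.isCoprime_iff_gcd_eq_one]
        have h5 : ((z.val : ℤ) : ZMod (3 ^ r)) = ((z0.val : ℤ) : ZMod (3 ^ r)) := by
          rw [← sub_eq_zero, ← Int.cast_sub, ZMod.intCast_zmod_eq_zero_iff_dvd]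
          exact_mod_cast h4
        simpa using h5
      rw [sum_eq_single z0, sum_eq_single z0]
      · rw [ic_eq_one hz0, mul_one, one_mul, ic_eq_one, mul_one]
        have h6 : (3 : ℤ) ^ (s + 1) ∣ 3 ^ (s + r + 1) := pow_dvd_pow _ (by omega)
        have h7 := dvd_trans h6 hz0
        have h8 : (3 : ℤ) ^ (s + 1) ∣ 3 ^ (s + 1) * 2 ^ d * (z0.val : ℤ) := by
          rw [mul_assoc]; exact Dvd.intro _ rfl
        have h9 := dvd_sub h7 h8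
        rwa [show g + 3 ^ (s + 1) * 2 ^ d * (z0.val : ℤ) - (X : ℤ) - 3 ^ (s + 1) * 2 ^ d * (z0.val : ℤ) = g - X by ring] at h9
      · intro z _ hz
        rw [huniq z hz, zero_mul]
      · intro h'; exact absurd (mem_univ _) h'
      · intro z _ hz
        rw [huniq z hz, mul_zero]
      · intro h'; exact absurd (mem_univ _) h'
    · have h0 : ∀ z : ZMod (3 ^ r), ic (s + r) (X : ℤ) (g + 3 ^ (s + 1) * 2 ^ d * (z.val : ℤ)) = 0 := by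
        intro z
        apply ic_eq_zero
        intro hd
        exact h ⟨z, hd⟩
      simp only [h0, mul_zero, zero_mul, sum_const_zero, LL_zero_left]
  rw [sum_congr rfl h1, sum_comm]
  apply sum_congr rfl
  intro z _
  rw [← sum_mul, sum_ic, one_mul]

theorem LL_ic_nonneg_aux {r : ℕ} {R Q : ZMod (3 ^ r) → ℝ} (hR : ∀ τ, 0 ≤ R τ) (hQ : ∀ τ, 0 ≤ Q τ) (z : ZMod (3 ^ r)) :
    0 ≤ cv R Q z := sum_nonneg fun τ _ => mul_nonneg (hR τ) (hQ _)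

/-- one step growth inequality -/
theorem growth (hst : Stat K p) {n : ℕ} (hΘ : IsTh n Θ) (Col : Finset (ℕ × ℕ))
    (hcol : ∀ w ∈ K.A, ∀ y, col w y ∈ Col) {s r : ℕ} (hm : s + r ≤ n) :
    ∑ y ∈ range (3 ^ (K.k + 1)), ∑ b ∈ range (3 ^ s), ∑ c ∈ Col, ∑ t ∈ range (3 ^ s),
      ent (cv (RR K Θ s r (y : ℤ) c t) (QQ p K.k s r (y : ℤ) b)) ≤ hh p (s + r) - hh p s := by
  have hp := hst.1
  rw [hh_sub hp]
  set T := range (3 ^ (K.k + 1)) ×ˢ range (3 ^ s) ×ˢ Col ×ˢ range (3 ^ s) with hT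
  let G : ℕ × ℕ × (ℕ × ℕ) × ℕ → ZMod (3 ^ r) → ℝ := fun q => cv (RR K Θ s r (q.1 : ℤ) q.2.2.1 q.2.2.2) (QQ p K.k s r (q.1 : ℤ) q.2.1)
  let m1 : ℕ × ℕ × (ℕ × ℕ) × ℕ → ℤ → ℝ := fun q X =>
    ∑ z : ZMod (3 ^ r), G q z * ic (s + r) X (gS q.2.2.1 q.2.2.2 q.2.1 + 3 ^ (s + 1) * 2 ^ q.2.2.1.1 * (z.val : ℤ))
  let m0 : ℕ × ℕ × (ℕ × ℕ) × ℕ → ℤ → ℝ := fun q X => (∑ z, G q z) * ic s X (gS q.2.2.1 q.2.2.2 q.2.1)
  have hG : ∀ q z, 0 ≤ G q z := fun q z => LL_ic_nonneg_aux (RR_nonneg _ _ _ _ _) (QQ_nonneg hp _ _ _ _ _) z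
  have hf : ∀ X : ℤ, p (s + r) X = ∑ q ∈ T, m1 q X := by
    intro X
    rw [fine hst hΘ Col hcol hm X, hT]
    simp only [sum_product]
    rfl
  have hc : ∀ X : ℤ, p s X = ∑ q ∈ T, m0 q X := by
    intro X
    rw [coarse hst hΘ Col hcol hm X, hT]
    simp only [sum_product, ← sum_cv]
    rfl
  have hlhs : ∑ y ∈ range (3 ^ (K.k + 1)), ∑ b ∈ range (3 ^ s), ∑ c ∈ Col, ∑ t ∈ range (3 ^ s),
      ent (cv (RR K Θ s r (y : ℤ) c t) (QQ p K.k s r (y : ℤ) b)) = ∑ q ∈ T, ent (G q) := by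
    rw [hT]
    simp only [sum_product]
    rfl
  rw [hlhs]
  have h2 : ∀ q ∈ T, ent (G q) = ∑ X ∈ range (3 ^ (s + r + 1)), LL (m1 q (X : ℤ)) (m0 q (X : ℤ)) := by
    intro q _
    exact (cell_LL (s := s) (r := r) (gS q.2.2.1 q.2.2.2 q.2.1) q.2.2.1.1 (G q) (∑ z, G q z)).symm
  rw [sum_congr rfl h2, sum_comm]
  apply sum_le_sum
  intro X _
  rw [hf, hc]
  apply LL_sum
  · intro q _
    exact sum_nonneg fun z _ => mul_nonneg (hG q z) (ic_nonneg _ _ _)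
  · intro q _
    exact mul_nonneg (sum_nonneg fun z _ => hG q z) (ic_nonneg _ _ _)
  · intro q _ h0
    rcases mul_eq_zero.mp h0 with h | h
    · have : ∀ z ∈ univ, G q z = 0 := (sum_eq_zero_iff_of_nonneg (fun z _ => hG q z)).mp h
      exact sum_eq_zero fun z hz => by rw [this z hz, zero_mul]
    · apply sum_eq_zero
      intro z _
      rw [ic_eq_zero, mul_zero]
      intro hd
      have h6 : (3 : ℤ) ^ (s + 1) ∣ 3 ^ (s + r + 1) := pow_dvd_pow _ (by omega)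
      have h7 := dvd_trans h6 hd
      have h8 : (3 : ℤ) ^ (s + 1) ∣ 3 ^ (s + 1) * 2 ^ q.2.2.1.1 * (z.val : ℤ) := by
        rw [mul_assoc]; exact Dvd.intro _ rfl
      have h9 := dvd_sub h7 h8
      rw [show gS q.2.2.1 q.2.2.2 q.2.1 + 3 ^ (s + 1) * 2 ^ q.2.2.1.1 * (z.val : ℤ) - (X : ℤ) - 3 ^ (s + 1) * 2 ^ q.2.2.1.1 * (z.val : ℤ) =
        gS q.2.2.1 q.2.2.2 q.2.1 - X by ring] at h9
      rw [ic_eq_one h9] at h
      norm_num at h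

end Pool.Agent.Helper9.Q1
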