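import Pool.Agent.Helper9.Q1.Logs

/-! Basic facts on laws, indicator functions and sums over residues. -/

namespace Pool.Agent.Helper9.Q1

open Finset Pool.Agent.Helper3.Q1

theorem sum_split (a b : ℕ) (ha : 0 < a) (F : ℕ → ℝ) :
    ∑ x ∈ range (a * b), F x = ∑ y ∈ range a, ∑ u ∈ range b, F (y + a * u) := by
  rw [← sum_product' (f := fun y u => F (y + a * u))]
  symm
  apply sum_nbij' (fun q : ℕ × ℕ => q.1 + a * q.2) (fun x => (x % a, x / a))
  · intro q hq
    simp only [mem_product, mem_range] at hq ⊢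
    calc q.1 + a * q.2 < a + a * q.2 := by omega
      _ = a * (q.2 + 1) := by ring
      _ ≤ a * b := Nat.mul_le_mul_left a hq.2
  · intro x hx
    simp only [mem_product, mem_range] at hx ⊢
    exact ⟨Nat.mod_lt x ha, Nat.div_lt_of_lt_mul hx⟩
  · intro q hq
    simp only [mem_product, mem_range] at hq
    ext
    · simp [Nat.add_mul_mod_self_left, Nat.mod_eq_of_lt hq.1]
    · simp [Nat.add_mul_div_left _ _ ha, Nat.div_eq_of_lt hq.1]
  · intro x _
    exact Nat.mod_add_div x a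
  · intro q _
    rfl

theorem sumZ {r : ℕ} (f : ℕ → ℝ) : ∑ v : ZMod (3 ^ r), f v.val = ∑ v ∈ range (3 ^ r), f v := by
  apply sum_nbij' (fun v : ZMod (3 ^ r) => v.val) (fun n : ℕ => (n : ZMod (3 ^ r)))
  · intro v _
    exact mem_range.mpr (ZMod.val_lt v)
  · intro n _
    exact mem_univ _
  · intro v _
    exact ZMod.natCast_zmod_val v
  · intro n hn
    exact ZMod.val_cast_of_lt (mem_range.mp hn)
  · intro v _
    rfl

theorem ic_eq_one {n : ℕ} {z x : ℤ} (h : (3 : ℤ) ^ (n + 1) ∣ x - z) : ic n z x = 1 := by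
  unfold ic; rw [if_pos h]

theorem ic_eq_zero {n : ℕ} {z x : ℤ} (h : ¬ (3 : ℤ) ^ (n + 1) ∣ x - z) : ic n z x = 0 := by
  unfold ic; rw [if_neg h]

theorem ic_congr {n : ℕ} {z x y : ℤ} (h : (3 : ℤ) ^ (n + 1) ∣ x - y) : ic n z x = ic n z y := by
  by_cases h1 : (3 : ℤ) ^ (n + 1) ∣ x - z
  · rw [ic_eq_one h1, ic_eq_one]
    have := dvd_sub h1 h
    rwa [show x - z - (x - y) = y - z by ring] at this
  · rw [ic_eq_zero h1, ic_eq_zero]
    intro h2
    apply h1
    have := dvd_add h h2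
    rwa [show x - y + (y - z) = x - z by ring] at this

theorem ic_nonneg (n : ℕ) (z x : ℤ) : 0 ≤ ic n z x := by
  unfold ic; split_ifs <;> norm_num

/-- exactly one representative -/
theorem sum_ic (n : ℕ) (a : ℤ) : ∑ X ∈ range (3 ^ (n + 1)), ic n (X : ℤ) a = 1 := by
  have h3 : (0 : ℤ) < 3 ^ (n + 1) := by positivity
  have hnn : 0 ≤ a % 3 ^ (n + 1) := Int.emod_nonneg _ h3.ne'
  have hlt : a % 3 ^ (n + 1) < 3 ^ (n + 1) := Int.emod_lt_of_pos _ h3
  rw [sum_eq_single (a % 3 ^ (n + 1)).toNat]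
  · apply ic_eq_one
    rw [Int.toNat_of_nonneg hnn]
    exact Int.dvd_self_sub_emod
  · intro X hX hne
    apply ic_eq_zero
    intro hd
    apply hne
    have h1 : a % 3 ^ (n + 1) = (X : ℤ) % 3 ^ (n + 1) :=
      Int.emod_eq_emod_iff_emod_sub_eq_zero.mpr (Int.emod_eq_zero_of_dvd hd)
    have h2 : (X : ℤ) % 3 ^ (n + 1) = X := by
      apply Int.emod_eq_of_lt (by positivity)
      exact_mod_cast mem_range.mp hX
    rw [h1, h2]; simp
  · intro h
    exfalso
    apply h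
    rw [mem_range]
    have : ((a % 3 ^ (n + 1)).toNat : ℤ) < 3 ^ (n + 1) := by rwa [Int.toNat_of_nonneg hnn]
    exact_mod_cast this

variable {p : ℕ → ℤ → ℝ}

theorem per_mul (hp : IsLaw p) (n : ℕ) (x m : ℤ) : p n (x + 3 ^ (n + 1) * m) = p n x := by
  induction m using Int.induction_on with
  | zero => simp
  | succ i ih => rw [show x + 3 ^ (n + 1) * ((i : ℤ) + 1) = x + 3 ^ (n + 1) * i + 3 ^ (n + 1) by ring, hp.per, ih]
  | pred i ih =>
    rw [← ih, ← hp.per n (x + 3 ^ (n + 1) * (-(i : ℤ) - 1))]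
    congr 1; ring

theorem p_congr (hp : IsLaw p) {n : ℕ} {x y : ℤ} (h : (3 : ℤ) ^ (n + 1) ∣ x - y) : p n x = p n y := by
  obtain ⟨m, hm⟩ := h
  rw [show x = y + 3 ^ (n + 1) * m by linarith, per_mul hp]

theorem p_cons (hp : IsLaw p) (n : ℕ) (x : ℤ) : p n x = ∑ v ∈ range 3, p (n + 1) (x + 3 ^ (n + 1) * (v : ℤ)) := by
  rw [hp.cons n x]
  simp [sum_range_succ]
  ring_nf

theorem p_sum (hp : IsLaw p) (n r : ℕ) (x : ℤ) :
    p n x = ∑ v ∈ range (3 ^ r), p (n + r) (x + 3 ^ (n + 1) * (v : ℤ)) := by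
  induction r with
  | zero => simp
  | succ r ih =>
    rw [ih, show 3 ^ (r + 1) = 3 ^ r * 3 by ring, sum_split _ _ (by positivity)]
    apply sum_congr rfl
    intro v _
    rw [p_cons hp (n + r)]
    apply sum_congr rfl
    intro u _
    congr 1
    push_cast
    ring

theorem p_le (hp : IsLaw p) (n r : ℕ) (x : ℤ) : p (n + r) x ≤ p n x := by
  induction r with
  | zero => simp
  | succ r ih =>
    refine le_trans ?_ ih
    rw [hp.cons (n + r) x]
    have h1 := hp.nonneg (n + r + 1) (x + 3 ^ (n + r + 1))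
    have h2 := hp.nonneg (n + r + 1) (x + 2 * 3 ^ (n + r + 1))
    have : p (n + (r + 1)) x = p (n + r + 1) x := by rw [add_assoc]
    linarith

theorem p_zero (hp : IsLaw p) (n : ℕ) {x : ℤ} (h : (3 : ℤ) ∣ x) : p n x = 0 := by
  apply le_antisymm _ (hp.nonneg n x)
  have h1 := p_le hp 0 n x
  rw [zero_add] at h1
  have h2 : p 0 x = p 0 0 := p_congr hp (by simpa using h)
  rw [h2, hp.zero] at h1
  exact h1

theorem total (hp : IsLaw p) (n : ℕ) : ∑ x ∈ range (3 ^ (n + 1)), p n (x : ℤ) = 1 := by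
  have h0 : ∑ x ∈ range (3 ^ (0 + 1)), p 0 (x : ℤ) = 1 := by
    simp [sum_range_succ, hp.zero, hp.one]
  rw [← h0]
  have h3 : (3 : ℕ) ^ (n + 1) = 3 ^ (0 + 1) * 3 ^ n := by ring
  rw [h3, sum_split _ _ (by positivity)]
  apply sum_congr rfl
  intro x _
  rw [p_sum hp 0 n]
  apply sum_congr rfl
  intro v _
  rw [zero_add, zero_add]
  push_cast
  rfl

theorem hh_sub (hp : IsLaw p) (s r : ℕ) :
    hh p (s + r) - hh p s = ∑ X ∈ range (3 ^ (s + r + 1)), LL (p (s + r) (X : ℤ)) (p s (X : ℤ)) := by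
  simp only [LL_eq, sum_add_distrib]
  have h1 : ∑ X ∈ range (3 ^ (s + r + 1)), p (s + r) (X : ℤ) * Real.log (p s (X : ℤ)) = - hh p s := by
    rw [show 3 ^ (s + r + 1) = 3 ^ (s + 1) * 3 ^ r by ring, sum_split _ _ (by positivity)]
    unfold hh Real.negMulLog
    rw [← sum_neg_distrib]
    apply sum_congr rfl
    intro x _
    have h2 : ∀ v ∈ range (3 ^ r), p (s + r) ((x + 3 ^ (s + 1) * v : ℕ) : ℤ) * Real.log (p s ((x + 3 ^ (s + 1) * v : ℕ) : ℤ)) =
        p (s + r) (x + 3 ^ (s + 1) * (v : ℤ)) * Real.log (p s (x : ℤ)) := by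
      intro v _
      push_cast
      rw [per_mul hp]
    rw [sum_congr rfl h2, ← sum_mul, ← p_sum hp s r]
    ring
  rw [h1]
  unfold hh
  ring

theorem hh_mono (hp : IsLaw p) (s r : ℕ) : 0 ≤ hh p (s + r) - hh p s := by
  rw [hh_sub hp]
  exact sum_nonneg fun X _ => LL_nonneg (hp.nonneg _ _) (p_le hp s r _)

/-- entropy gain as a sum over cells -/
theorem hh_sub_nent (hp : IsLaw p) (s r : ℕ) :
    hh p (s + r) - hh p s = ∑ x ∈ range (3 ^ (s + 1)), nent p s r (x : ℤ) := by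
  rw [hh_sub hp, show 3 ^ (s + r + 1) = 3 ^ (s + 1) * 3 ^ r by ring, sum_split _ _ (by positivity)]
  apply sum_congr rfl
  intro x _
  unfold nent
  apply sum_congr rfl
  intro v _
  push_cast
  rw [per_mul hp]

end Pool.Agent.Helper9.Q1
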