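import Pool.Agent.Helper3.Q1.Words

/-! Elementary facts about `LL a b = a log (b / a)`. -/

namespace Pool.Agent.Helper9.Q1

open Finset Pool.Agent.Helper3.Q1

theorem LL_self (a : ℝ) : LL a a = 0 := by unfold LL; ring

theorem LL_zero_left (b : ℝ) : LL 0 b = 0 := by unfold LL; simp

theorem LL_one_right (a : ℝ) : LL a 1 = Real.negMulLog a := by
  unfold LL Real.negMulLog; simp

theorem LL_eq (a b : ℝ) : LL a b = Real.negMulLog a + a * Real.log b := by
  unfold LL Real.negMulLog; ring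

theorem LL_nonneg {a b : ℝ} (ha : 0 ≤ a) (hab : a ≤ b) : 0 ≤ LL a b := by
  unfold LL
  rcases ha.eq_or_lt with h | h
  · rw [← h]; simp
  · have := Real.log_le_log h hab
    nlinarith

theorem LL_mul {c a b : ℝ} (h : b = 0 → a = 0) : LL (c * a) (c * b) = c * LL a b := by
  unfold LL
  by_cases hc : c = 0
  · subst hc; simp
  by_cases ha : a = 0
  · subst ha; simp
  have hb : b ≠ 0 := fun h' => ha (h h')
  rw [Real.log_mul hc hb, Real.log_mul hc ha]
  ring

/-- tangent line bound -/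
theorem LL_le {a b A B : ℝ} (ha : 0 ≤ a) (hb : 0 ≤ b) (h : b = 0 → a = 0) (hA : 0 < A) (hB : 0 < B) :
    LL a b ≤ a * Real.log B - a * Real.log A + b * A / B - a := by
  unfold LL
  rcases ha.eq_or_lt with h0 | h0
  · rw [← h0]; simp; positivity
  have hb0 : 0 < b := lt_of_le_of_ne hb (fun h' => h0.ne' (h h'.symm))
  have h1 : Real.log (b * A / (a * B)) ≤ b * A / (a * B) - 1 := Real.log_le_sub_one_of_pos (by positivity)
  rw [Real.log_div (by positivity) (by positivity), Real.log_mul hb0.ne' hA.ne', Real.log_mul h0.ne' hB.ne'] at h1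
  have h2 := mul_le_mul_of_nonneg_left h1 h0.le
  have h3 : a * (b * A / (a * B) - 1) = b * A / B - a := by field_simp
  rw [h3] at h2
  nlinarith

/-- the log-sum inequality -/
theorem LL_sum {ι : Type*} (s : Finset ι) (a b : ι → ℝ) (ha : ∀ i ∈ s, 0 ≤ a i) (hb : ∀ i ∈ s, 0 ≤ b i)
    (h : ∀ i ∈ s, b i = 0 → a i = 0) : ∑ i ∈ s, LL (a i) (b i) ≤ LL (∑ i ∈ s, a i) (∑ i ∈ s, b i) := by
  set A := ∑ i ∈ s, a i with hAdef
  set B := ∑ i ∈ s, b i with hBdef
  have hA0 : 0 ≤ A := sum_nonneg ha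
  have hB0 : 0 ≤ B := sum_nonneg hb
  rcases hA0.eq_or_lt with hA | hA
  · rw [← hA, LL_zero_left]
    have : ∀ i ∈ s, a i = 0 := (sum_eq_zero_iff_of_nonneg ha).mp (by rw [← hAdef]; exact hA.symm)
    apply le_of_eq
    apply sum_eq_zero
    intro i hi
    rw [this i hi, LL_zero_left]
  have hB : 0 < B := by
    rcases hB0.eq_or_lt with hB | hB
    · exfalso
      have hb' : ∀ i ∈ s, b i = 0 := (sum_eq_zero_iff_of_nonneg hb).mp (by rw [← hBdef]; exact hB.symm)
      have : A = 0 := sum_eq_zero (fun i hi => h i hi (hb' i hi))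
      linarith
    · exact hB
  calc ∑ i ∈ s, LL (a i) (b i) ≤ ∑ i ∈ s, (a i * Real.log B - a i * Real.log A + b i * A / B - a i) :=
        sum_le_sum fun i hi => LL_le (ha i hi) (hb i hi) (h i hi) hA hB
    _ = A * Real.log B - A * Real.log A + B * A / B - A := by
        rw [sum_sub_distrib, sum_add_distrib, sum_sub_distrib, ← sum_mul, ← sum_mul, ← hAdef, ← sum_div, ← sum_mul]
    _ = LL A B := by
        unfold LL
        have : B * A / B = A := by field_simp
        rw [this]; ring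

/-- entropy is at most the logarithm of the number of classes -/
theorem sum_LL_le_card {ι : Type*} (s : Finset ι) (a : ι → ℝ) (ha : ∀ i ∈ s, 0 ≤ a i) (hs : s.Nonempty) :
    ∑ i ∈ s, LL (a i) (∑ j ∈ s, a j) ≤ (∑ i ∈ s, a i) * Real.log s.card := by
  have hc : (0 : ℝ) < s.card := by exact_mod_cast hs.card_pos
  have h1 := LL_sum s a (fun _ => 1) ha (fun _ _ => zero_le_one) (fun _ _ h => absurd h one_ne_zero)
  rw [sum_const, nsmul_eq_mul, mul_one] at h1
  have h2 : ∑ i ∈ s, LL (a i) (∑ j ∈ s, a j) = ∑ i ∈ s, LL (a i) 1 + (∑ j ∈ s, a j) * Real.log (∑ j ∈ s, a j) := by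
    rw [sum_mul, ← sum_add_distrib]
    apply sum_congr rfl
    intro i _
    unfold LL; simp; ring
  rw [h2]
  have h3 : LL (∑ i ∈ s, a i) s.card = (∑ i ∈ s, a i) * Real.log s.card - (∑ j ∈ s, a j) * Real.log (∑ j ∈ s, a j) := rfl
  linarith

theorem sum_negMulLog_le_card {ι : Type*} (s : Finset ι) (a : ι → ℝ) (ha : ∀ i ∈ s, 0 ≤ a i) (h1 : ∑ i ∈ s, a i = 1)
    (hs : s.Nonempty) : ∑ i ∈ s, Real.negMulLog (a i) ≤ Real.log s.card := by
  have := sum_LL_le_card s a ha hs
  rw [h1, one_mul] at this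
  simpa [LL_one_right] using this

/-- refinement: sum of `negMulLog` minus `negMulLog` of the sum -/
theorem sum_LL_sum {ι : Type*} (s : Finset ι) (a : ι → ℝ) :
    ∑ i ∈ s, LL (a i) (∑ j ∈ s, a j) = ∑ i ∈ s, Real.negMulLog (a i) - Real.negMulLog (∑ j ∈ s, a j) := by
  simp only [LL_eq, sum_add_distrib, ← sum_mul]
  unfold Real.negMulLog
  ring

end Pool.Agent.Helper9.Q1
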