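import Pool.Agent.Helper9.Q1.Theta

/-! The estimate for one kernel and one scale. -/

namespace Pool.Agent.Helper9.Q1

open Finset Pool.Agent.Helper3.Q1

/-- the entropy of a convolution is at least that of one factor -/
theorem ent_cv {r : ℕ} {R Q : ZMod (3 ^ r) → ℝ} (hR : ∀ τ, 0 ≤ R τ) (hQ : ∀ τ, 0 ≤ Q τ) :
    (∑ τ, R τ) * ent Q ≤ ent (cv R Q) := by
  have hq0 : ∀ z, (∑ y, Q y) = 0 → Q z = 0 := fun z h =>
    (sum_eq_zero_iff_of_nonneg (fun y _ => hQ y)).mp h z (mem_univ _)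
  have h1 : (∑ τ, R τ) * ent Q = ∑ z, ∑ τ, R τ * LL (Q (z - τ)) (∑ y, Q y) := by
    rw [sum_comm, sum_mul]
    apply sum_congr rfl
    intro τ _
    rw [← mul_sum]
    congr 1
    unfold ent
    exact (Equiv.sum_comp (Equiv.subRight τ) (fun z => LL (Q z) (∑ y, Q y))).symm
  rw [h1]
  unfold ent
  rw [sum_cv]
  apply sum_le_sum
  intro z _
  have h2 : ∀ τ ∈ (univ : Finset (ZMod (3 ^ r))), R τ * LL (Q (z - τ)) (∑ y, Q y) = LL (R τ * Q (z - τ)) (R τ * ∑ y, Q y) :=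
    fun τ _ => (LL_mul (hq0 _)).symm
  rw [sum_congr rfl h2]
  unfold cv
  rw [sum_mul]
  apply LL_sum
  · intro τ _; exact mul_nonneg (hR τ) (hQ _)
  · intro τ _; exact mul_nonneg (hR τ) (sum_nonneg fun y _ => hQ y)
  · intro τ _ h
    rcases mul_eq_zero.mp h with h | h
    · rw [h, zero_mul]
    · rw [hq0 _ h, mul_zero]

theorem rd_nonneg {k r : ℕ} {R : ZMod (3 ^ r) → ℝ} (hR : ∀ τ, 0 ≤ R τ) (j : ℕ) : 0 ≤ rd k R j := by
  unfold rd
  apply sum_nonneg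
  intro τ _
  split_ifs
  · exact hR τ
  · exact le_rfl

theorem rd_LL_le {k r : ℕ} {R : ZMod (3 ^ r) → ℝ} (hR : ∀ τ, 0 ≤ R τ) :
    ∑ j ∈ range (3 ^ k), LL (rd k R j) (∑ τ, R τ) ≤ (∑ τ, R τ) * (k * Real.log 3) := by
  have h := sum_LL_le_card (range (3 ^ k)) (fun j => rd k R j) (fun j _ => rd_nonneg hR j)
    ⟨0, mem_range.mpr (by positivity)⟩
  rw [sum_rd, card_range] at h
  push_cast at h
  rwa [Real.log_pow] at h

/-- the trichotomy, summed up -/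
theorem tri {k r : ℕ} {ω δ η : ℝ} (hω : 0 ≤ ω) (hη : 0 < η)
    {R Q : ZMod (3 ^ r) → ℝ} (hR : ∀ τ, 0 ≤ R τ) (hQ : ∀ τ, 0 ≤ Q τ)
    (h : (∑ j ∈ range (3 ^ k), LL (rd k R j) (∑ τ, R τ) ≤ ω * ∑ τ, R τ) ∨
      (((r : ℝ) - k) * Real.log 3 - δ) * (∑ τ, Q τ) ≤ ent Q ∨
      η * ((∑ τ, R τ) * ∑ τ, Q τ) ≤ ent (cv R Q) - (∑ τ, R τ) * ent Q) {g : ℝ} (hg0 : 0 ≤ g)
    (hg : (((r : ℝ) - k) * Real.log 3 - δ) * (∑ τ, Q τ) ≤ ent Q → g = 1) :
    (∑ τ, Q τ) * ∑ j ∈ range (3 ^ k), LL (rd k R j) (∑ τ, R τ) ≤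
      ω * ((∑ τ, R τ) * ∑ τ, Q τ) + k * Real.log 3 * ((∑ τ, R τ) * (∑ τ, Q τ) * g) +
      k * Real.log 3 / η * (ent (cv R Q) - (∑ τ, R τ) * ent Q) := by
  have hA : 0 ≤ ∑ τ, R τ := sum_nonneg fun τ _ => hR τ
  have hB : 0 ≤ ∑ τ, Q τ := sum_nonneg fun τ _ => hQ τ
  have hL := rd_LL_le (k := k) hR
  have hgr : 0 ≤ ent (cv R Q) - (∑ τ, R τ) * ent Q := by have := ent_cv hR hQ; linarith
  have hlog : 0 ≤ (k : ℝ) * Real.log 3 := mul_nonneg (Nat.cast_nonneg _) (Real.log_nonneg (by norm_num))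
  set a := ∑ τ, R τ
  set q := ∑ τ, Q τ
  set L := ∑ j ∈ range (3 ^ k), LL (rd k R j) a
  set gr := ent (cv R Q) - a * ent Q
  have t1 : 0 ≤ ω * (a * q) := mul_nonneg hω (mul_nonneg hA hB)
  have t2 : 0 ≤ k * Real.log 3 * (a * q * g) := mul_nonneg hlog (mul_nonneg (mul_nonneg hA hB) hg0)
  have t3 : 0 ≤ k * Real.log 3 / η * gr := mul_nonneg (div_nonneg hlog hη.le) hgr
  have hL2 : q * L ≤ q * (a * (k * Real.log 3)) := mul_le_mul_of_nonneg_left hL hB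
  rcases h with h | h | h
  · have h4 : q * L ≤ q * (ω * a) := mul_le_mul_of_nonneg_left h hB
    have : q * (ω * a) = ω * (a * q) := by ring
    linarith
  · rw [hg h] at t2 ⊢
    have : q * (a * (k * Real.log 3)) = k * Real.log 3 * (a * q * 1) := by ring
    linarith
  · have h4 : k * Real.log 3 / η * (η * (a * q)) ≤ k * Real.log 3 / η * gr :=
      mul_le_mul_of_nonneg_left h (div_nonneg hlog hη.le)
    have h5 : k * Real.log 3 / η * (η * (a * q)) = q * (a * (k * Real.log 3)) := by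
      field_simp
    linarith

variable {K : Ker} {p : ℕ → ℤ → ℝ} {Θ : List ℕ → ℤ → ℕ}

open Classical in
/-- cells with almost full entropy -/
noncomputable def good (p : ℕ → ℤ → ℝ) (u r : ℕ) (E : ℝ) : Finset ℕ :=
  (range (3 ^ (u + 1))).filter (fun x : ℕ => E * p u (x : ℤ) ≤ nent p u r (x : ℤ))

theorem stage (hst : Stat K p) {n : ℕ} (hΘ : IsTh n Θ) (Col : Finset (ℕ × ℕ))
    (hcol : ∀ w ∈ K.A, ∀ y, col w y ∈ Col) {s r k : ℕ} (hk : k ≤ r) (hm : s + r ≤ n)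
    {ω δ η : ℝ} (hω : 0 ≤ ω) (hη : 0 < η)
    (hCL : ∀ R Q : ZMod (3 ^ r) → ℝ, (∀ τ, 0 ≤ R τ) → (∀ τ, 0 ≤ Q τ) →
    (∑ j ∈ range (3 ^ k), LL (rd k R j) (∑ τ, R τ) ≤ ω * ∑ τ, R τ) ∨
    (((r : ℝ) - k) * Real.log 3 - δ) * (∑ τ, Q τ) ≤ ent Q ∨
    η * ((∑ τ, R τ) * ∑ τ, Q τ) ≤ ent (cv R Q) - (∑ τ, R τ) * ent Q) :
    ∑ y ∈ range (3 ^ (K.k + 1)), p K.k (y : ℤ) * (Hs K Θ Col (s + k) y - Hs K Θ Col s y) ≤
      ω + k * Real.log 3 * (∑ x ∈ good p (K.k + s) r (((r : ℝ) - k) * Real.log 3 - δ), p (K.k + s) (x : ℤ)) +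
      k * Real.log 3 / η * ((hh p (s + r) - hh p s) - (hh p (K.k + s + r) - hh p (K.k + s))) := by
  classical
  have hp := hst.1
  set E : ℝ := ((r : ℝ) - k) * Real.log 3 - δ with hE
  let R : ℕ → ℕ × ℕ → ℕ → ZMod (3 ^ r) → ℝ := fun y c t => RR K Θ s r (y : ℤ) c t
  let Q : ℕ → ℕ → ZMod (3 ^ r) → ℝ := fun y b => QQ p K.k s r (y : ℤ) b
  let X : ℕ → ℕ → ℤ := fun y b => (y : ℤ) + 3 ^ (K.k + 1) * (b : ℤ)
  let g : ℕ → ℕ → ℝ := fun y b => if E * p (K.k + s) (X y b) ≤ nent p (K.k + s) r (X y b) then 1 else 0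
  have hQs : ∀ y b, ∑ v, Q y b v = p (K.k + s) (X y b) := fun y b => sum_QQ hp K.k s r y b
  have hQe : ∀ y b, ent (Q y b) = nent p (K.k + s) r (X y b) := fun y b => ent_QQ hp K.k s r y b
  have hR0 : ∀ y c t τ, 0 ≤ R y c t τ := fun y c t τ => RR_nonneg _ _ _ _ _ _
  have hQ0 : ∀ y b v, 0 ≤ Q y b v := fun y b v => QQ_nonneg hp _ _ _ _ _ _
  have hg0 : ∀ y b, 0 ≤ g y b := fun y b => by
    change 0 ≤ (if E * p (K.k + s) (X y b) ≤ nent p (K.k + s) r (X y b) then (1 : ℝ) else 0)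
    split_ifs <;> norm_num
  have hlog : 0 ≤ (k : ℝ) * Real.log 3 := mul_nonneg (Nat.cast_nonneg _) (Real.log_nonneg (by norm_num))
  have hpsum : ∀ y : ℕ, p K.k (y : ℤ) = ∑ b ∈ range (3 ^ s), p (K.k + s) (X y b) := fun y => p_sum hp K.k s y
  -- one cell
  have cell : ∀ y b : ℕ, p (K.k + s) (X y b) * (Hs K Θ Col (s + k) y - Hs K Θ Col s y) ≤
      ω * p (K.k + s) (X y b) + k * Real.log 3 * (p (K.k + s) (X y b) * g y b) +
      k * Real.log 3 / η * (∑ c ∈ Col, ∑ t ∈ range (3 ^ s), ent (cv (R y c t) (Q y b)) - ent (Q y b)) := by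
    intro y b
    by_cases hy : (3 : ℤ) ∣ (y : ℤ)
    · have hX : (3 : ℤ) ∣ X y b := by
        apply dvd_add hy
        rw [pow_succ]
        exact Dvd.dvd.mul_right (Dvd.intro_left _ rfl) _
      have hz : p (K.k + s) (X y b) = 0 := p_zero hp _ hX
      have hQz : ∀ v, Q y b v = 0 := by
        intro v
        have h1 : ∑ v, Q y b v = 0 := by rw [hQs, hz]
        exact (sum_eq_zero_iff_of_nonneg (fun v _ => hQ0 y b v)).mp h1 v (mem_univ _)
      have he : ent (Q y b) = 0 := by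
        unfold ent
        exact sum_eq_zero fun v _ => by rw [hQz, LL_zero_left]
      have hcvz : ∀ c t, ent (cv (R y c t) (Q y b)) = 0 := by
        intro c t
        unfold ent
        apply sum_eq_zero
        intro v _
        have : cv (R y c t) (Q y b) v = 0 := by
          unfold cv; exact sum_eq_zero fun τ _ => by rw [hQz, mul_zero]
        rw [this, LL_zero_left]
      rw [hz, he]
      simp [hcvz]
    · have hsumR : ∑ c ∈ Col, ∑ t ∈ range (3 ^ s), ∑ τ, R y c t τ = 1 := by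
        have h1 : ∀ c ∈ Col, ∀ t ∈ range (3 ^ s), ∑ τ, R y c t τ = ms K Θ s y c t := fun c _ t _ => sum_RR s r y c t
        rw [sum_congr rfl (fun c hc => sum_congr rfl (h1 c hc))]
        exact sum_ms Col y (fun w hw => hcol w hw y) s hy
      have h2 : ∀ c ∈ Col, ∀ t ∈ range (3 ^ s), p (K.k + s) (X y b) * ∑ j ∈ range (3 ^ k), LL (rd k (R y c t) j) (∑ τ, R y c t τ) ≤
          ω * ((∑ τ, R y c t τ) * p (K.k + s) (X y b)) + k * Real.log 3 * ((∑ τ, R y c t τ) * p (K.k + s) (X y b) * g y b) +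
          k * Real.log 3 / η * (ent (cv (R y c t) (Q y b)) - (∑ τ, R y c t τ) * ent (Q y b)) := by
        intro c _ t _
        have h3 := tri (g := g y b) hω hη (hR0 y c t) (hQ0 y b) (hCL _ _ (hR0 y c t) (hQ0 y b)) (hg0 y b) (by
          intro h4
          rw [hQs, hQe] at h4
          exact if_pos h4)
        rw [hQs] at h3
        exact h3
      rw [Hs_chain Col hk]
      simp only [mul_sum] at h2 ⊢
      refine le_trans (sum_le_sum fun c hc => sum_le_sum fun t ht => h2 c hc t ht) ?_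
      simp only [sum_add_distrib, sum_sub_distrib, ← mul_sum, ← sum_mul]
      rw [hsumR]
      simp only [one_mul]
      exact le_rfl
  -- sum over the cells
  have hsplit : ∀ F : ℤ → ℝ, ∑ x ∈ range (3 ^ (K.k + s + 1)), F (x : ℤ) =
      ∑ y ∈ range (3 ^ (K.k + 1)), ∑ b ∈ range (3 ^ s), F (X y b) := by
    intro F
    rw [show 3 ^ (K.k + s + 1) = 3 ^ (K.k + 1) * 3 ^ s by ring, sum_split _ _ (by positivity)]
    apply sum_congr rfl
    intro y _
    apply sum_congr rfl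
    intro b _
    push_cast
    rfl
  have s0 : ∑ y ∈ range (3 ^ (K.k + 1)), ∑ b ∈ range (3 ^ s), p (K.k + s) (X y b) = 1 := by
    rw [← hsplit (fun x => p (K.k + s) x)]
    exact total hp _
  have s1 : ∑ y ∈ range (3 ^ (K.k + 1)), ∑ b ∈ range (3 ^ s), p (K.k + s) (X y b) * g y b =
      ∑ x ∈ good p (K.k + s) r E, p (K.k + s) (x : ℤ) := by
    unfold good
    rw [sum_filter]
    rw [hsplit (fun x => if E * p (K.k + s) x ≤ nent p (K.k + s) r x then p (K.k + s) x else 0)]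
    apply sum_congr rfl
    intro y _
    apply sum_congr rfl
    intro b _
    change p (K.k + s) (X y b) * (if E * p (K.k + s) (X y b) ≤ nent p (K.k + s) r (X y b) then (1 : ℝ) else 0) = _
    split_ifs <;> simp
  have s2 : ∑ y ∈ range (3 ^ (K.k + 1)), ∑ b ∈ range (3 ^ s), ent (Q y b) = hh p (K.k + s + r) - hh p (K.k + s) := by
    rw [hh_sub_nent hp, hsplit (fun x => nent p (K.k + s) r x)]
    apply sum_congr rfl
    intro y _
    apply sum_congr rfl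
    intro b _
    exact hQe y b
  have s3 := growth hst hΘ Col hcol hm
  calc ∑ y ∈ range (3 ^ (K.k + 1)), p K.k (y : ℤ) * (Hs K Θ Col (s + k) y - Hs K Θ Col s y)
      = ∑ y ∈ range (3 ^ (K.k + 1)), ∑ b ∈ range (3 ^ s), p (K.k + s) (X y b) * (Hs K Θ Col (s + k) y - Hs K Θ Col s y) := by
        apply sum_congr rfl
        intro y _
        rw [hpsum, sum_mul]
    _ ≤ ∑ y ∈ range (3 ^ (K.k + 1)), ∑ b ∈ range (3 ^ s), (ω * p (K.k + s) (X y b) + k * Real.log 3 * (p (K.k + s) (X y b) * g y b) +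
      k * Real.log 3 / η * (∑ c ∈ Col, ∑ t ∈ range (3 ^ s), ent (cv (R y c t) (Q y b)) - ent (Q y b))) :=
        sum_le_sum fun y _ => sum_le_sum fun b _ => cell y b
    _ = ω + k * Real.log 3 * (∑ x ∈ good p (K.k + s) r E, p (K.k + s) (x : ℤ)) +
      k * Real.log 3 / η * ((∑ y ∈ range (3 ^ (K.k + 1)), ∑ b ∈ range (3 ^ s), ∑ c ∈ Col, ∑ t ∈ range (3 ^ s), ent (cv (R y c t) (Q y b))) -
        (hh p (K.k + s + r) - hh p (K.k + s))) := by
        simp only [sum_add_distrib, sum_sub_distrib, ← mul_sum]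
        rw [s0, s1, s2, mul_one]
    _ ≤ _ := by
        have h5 : 0 ≤ k * Real.log 3 / η := div_nonneg hlog hη.le
        have h6 := mul_le_mul_of_nonneg_left (sub_le_sub_right s3 (hh p (K.k + s + r) - hh p (K.k + s))) h5
        linarith

end Pool.Agent.Helper9.Q1
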