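import Pool.Agent.Helper9.Q1.Growth

/-! Entropy of `Θ`. -/

namespace Pool.Agent.Helper9.Q1

open Finset Pool.Agent.Helper3.Q1

/-- mass of a class of words -/
noncomputable def ms (K : Ker) (Θ : List ℕ → ℤ → ℕ) (s : ℕ) (y : ℤ) (c : ℕ × ℕ) (t : ℕ) : ℝ :=
  ∑ w ∈ K.A, if col w y = c ∧ Θ w y % 3 ^ s = t then K.κ w y else 0

/-- entropy of the first `s` digits of `Θ` together with the color -/
noncomputable def Hs (K : Ker) (Θ : List ℕ → ℤ → ℕ) (Col : Finset (ℕ × ℕ)) (s : ℕ) (y : ℤ) : ℝ :=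
  ∑ c ∈ Col, ∑ t ∈ range (3 ^ s), Real.negMulLog (ms K Θ s y c t)

variable {K : Ker} {p : ℕ → ℤ → ℝ} {Θ : List ℕ → ℤ → ℕ}

theorem ms_nonneg (s : ℕ) (y : ℤ) (c : ℕ × ℕ) (t : ℕ) : 0 ≤ ms K Θ s y c t := by
  unfold ms
  apply sum_nonneg
  intro w _
  split_ifs
  · exact K.nonneg w y
  · exact le_rfl

theorem rd_RR {s r k : ℕ} (hk : k ≤ r) (y : ℤ) (c : ℕ × ℕ) {t : ℕ} (ht : t < 3 ^ s) {j : ℕ} (hj : j < 3 ^ k) :
    rd k (RR K Θ s r y c t) j = ms K Θ (s + k) y c (t + 3 ^ s * j) := by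
  have h1 : rd k (RR K Θ s r y c t) j = ∑ τ, RR K Θ s r y c t τ * (if τ.val % 3 ^ k = j then 1 else 0) := by
    unfold rd
    apply sum_congr rfl
    intro τ _
    split_ifs <;> simp
  rw [h1, sum_RR_mul]
  unfold ms
  apply sum_congr rfl
  intro w _
  have h2 : ((Θ w y / 3 ^ s : ℕ) : ZMod (3 ^ r)).val % 3 ^ k = (Θ w y / 3 ^ s) % 3 ^ k := by
    rw [ZMod.val_natCast]
    exact Nat.mod_mod_of_dvd _ (pow_dvd_pow 3 hk)
  rw [h2]
  have h3 : Θ w y % 3 ^ (s + k) = Θ w y % 3 ^ s + 3 ^ s * (Θ w y / 3 ^ s % 3 ^ k) := by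
    rw [pow_add, Nat.mod_mul]
  by_cases ha : col w y = c ∧ Θ w y % 3 ^ s = t
  · rw [if_pos ha]
    by_cases hb : (Θ w y / 3 ^ s) % 3 ^ k = j
    · rw [if_pos hb, if_pos ⟨ha.1, by rw [h3, ha.2, hb]⟩, mul_one]
    · rw [if_neg hb, mul_zero, if_neg]
      rintro ⟨_, h4⟩
      apply hb
      rw [h3, ha.2] at h4
      have h5 : 3 ^ s * (Θ w y / 3 ^ s % 3 ^ k) = 3 ^ s * j := by omega
      exact Nat.eq_of_mul_eq_mul_left (by positivity) h5
  · rw [if_neg ha, if_neg]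
    rintro ⟨h5, h4⟩
    apply ha
    refine ⟨h5, ?_⟩
    have h6 := congrArg (fun x => x % 3 ^ s) h4
    rw [Nat.add_mul_mod_self_left, Nat.mod_eq_of_lt ht, Nat.mod_mod_of_dvd _ (pow_dvd_pow 3 (Nat.le_add_right s k))] at h6
    exact h6

theorem sum_rd {k r : ℕ} (R : ZMod (3 ^ r) → ℝ) : ∑ j ∈ range (3 ^ k), rd k R j = ∑ τ, R τ := by
  unfold rd
  rw [sum_comm]
  apply sum_congr rfl
  intro τ _
  rw [sum_eq_single (τ.val % 3 ^ k)]
  · rw [if_pos rfl]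
  · intro j _ hne
    rw [if_neg (fun h => hne h.symm)]
  · intro h
    exact absurd (mem_range.mpr (Nat.mod_lt _ (by positivity))) h

/-- chain rule -/
theorem Hs_chain (Col : Finset (ℕ × ℕ)) {s r k : ℕ} (hk : k ≤ r) (y : ℤ) :
    Hs K Θ Col (s + k) y - Hs K Θ Col s y =
      ∑ c ∈ Col, ∑ t ∈ range (3 ^ s), ∑ j ∈ range (3 ^ k), LL (rd k (RR K Θ s r y c t) j) (∑ τ, RR K Θ s r y c t τ) := by
  unfold Hs
  rw [← sum_sub_distrib]
  apply sum_congr rfl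
  intro c _
  rw [show 3 ^ (s + k) = 3 ^ s * 3 ^ k by ring, sum_split _ _ (by positivity), ← sum_sub_distrib]
  apply sum_congr rfl
  intro t ht
  have h1 : ∑ τ, RR K Θ s r y c t τ = ∑ j ∈ range (3 ^ k), rd k (RR K Θ s r y c t) j := (sum_rd _).symm
  rw [h1, sum_LL_sum, ← h1, sum_RR]
  congr 1
  apply sum_congr rfl
  intro j hj
  rw [rd_RR hk y c (mem_range.mp ht) (mem_range.mp hj)]

theorem sum_ms (Col : Finset (ℕ × ℕ)) (y : ℤ) (hcol : ∀ w ∈ K.A, col w y ∈ Col) (s : ℕ) (hy : ¬ (3 : ℤ) ∣ y) :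
    ∑ c ∈ Col, ∑ t ∈ range (3 ^ s), ms K Θ s y c t = 1 := by
  unfold ms
  rw [sum_group (F := fun w _ _ => K.κ w y) Col y hcol s, K.one y hy]

/-- upper bound -/
theorem Hs_le (Col : Finset (ℕ × ℕ)) (y : ℤ) (hcol : ∀ w ∈ K.A, col w y ∈ Col) (s : ℕ) (hy : ¬ (3 : ℤ) ∣ y) :
    Hs K Θ Col s y ≤ Real.log (Col.card * 3 ^ s) := by
  have h1 : Hs K Θ Col s y = ∑ q ∈ Col ×ˢ range (3 ^ s), Real.negMulLog (ms K Θ s y q.1 q.2) := by
    unfold Hs; rw [sum_product]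
  have h2 : ∑ q ∈ Col ×ˢ range (3 ^ s), ms K Θ s y q.1 q.2 = 1 := by
    rw [sum_product]; exact sum_ms Col y hcol s hy
  have hne : (Col ×ˢ range (3 ^ s)).Nonempty := by
    rw [nonempty_iff_ne_empty]
    intro h
    rw [h] at h2
    simp at h2
  rw [h1]
  have h3 := sum_negMulLog_le_card _ (fun q : (ℕ × ℕ) × ℕ => ms K Θ s y q.1 q.2) (fun q _ => ms_nonneg s y q.1 q.2) h2 hne
  rw [card_product, card_range] at h3
  push_cast at h3
  exact h3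

/-- recovery of the word -/
theorem word_inj {n : ℕ} (hΘ : IsTh n Θ) {D m : ℕ} (hD : ∀ w ∈ K.A, w.sum ≤ D) (hm : D ≤ m) (hmn : m ≤ n)
    {y : ℤ} {w w' : List ℕ} (hw : w ∈ K.A) (hw' : w' ∈ K.A) (h0 : K.κ w y ≠ 0) (h0' : K.κ w' y ≠ 0)
    (hc : col w y = col w' y) (ht : Θ w y % 3 ^ m = Θ w' y % 3 ^ m) : w = w' := by
  have hs : w.sum = w'.sum := congrArg Prod.fst hc
  have he : nx w y % 3 = nx w' y % 3 := by
    rw [← col_toNat, ← col_toNat, hc]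
  have hl := K.len w hw
  have hl' := K.len w' hw'
  have e1 := nx_mul (K.supp w hw y h0).1
  have e2 := nx_mul (K.supp w' hw' y h0').1
  rw [hl] at e1
  rw [hl', ← hs] at e2
  have hdm : (3 : ℤ) ^ (m + 1) ∣ 3 ^ (n + 1) := pow_dvd_pow _ (by omega)
  have d1 := dvd_trans hdm (hΘ w y)
  have d2 := dvd_trans hdm (hΘ w' y)
  have d3 : (3 : ℤ) ^ m ∣ (Θ w y : ℤ) - Θ w' y := by
    have h5 : (Θ w y : ℤ) % (3 ^ m : ℕ) = (Θ w' y : ℤ) % (3 ^ m : ℕ) := by exact_mod_cast ht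
    have h6 := Int.emod_eq_emod_iff_emod_sub_eq_zero.mp h5
    have h7 := Int.dvd_of_emod_eq_zero h6
    exact_mod_cast h7
  have d4 : (3 : ℤ) ^ (m + 1) ∣ nx w y - nx w' y := by
    rw [← hs, ← he] at d2
    have h8 := dvd_sub d1 d2
    obtain ⟨q, hq⟩ := d3
    have h9 : (3 : ℤ) ^ (m + 1) ∣ 3 * 2 ^ w.sum * ((Θ w y : ℤ) - Θ w' y) := ⟨2 ^ w.sum * q, by rw [hq]; ring⟩
    have h10 := dvd_add h8 h9
    rwa [show nx w y - (nx w y % 3 + 3 * 2 ^ w.sum * (Θ w y : ℤ)) - (nx w' y - (nx w y % 3 + 3 * 2 ^ w.sum * (Θ w' y : ℤ))) +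
      3 * 2 ^ w.sum * ((Θ w y : ℤ) - Θ w' y) = nx w y - nx w' y by ring] at h10
  have d5 : (3 : ℤ) ^ (K.k + (m + 1)) ∣ cw w' - cw w := by
    obtain ⟨q, hq⟩ := d4
    refine ⟨q, ?_⟩
    rw [pow_add, mul_assoc, ← hq, mul_sub, e1, e2]
    ring
  have bd : ∀ v ∈ K.A, cw v < 3 ^ (K.k + (m + 1)) := by
    intro v hv
    have h1 := cw_le v (K.ge1 v hv)
    rw [K.len v hv] at h1
    have h2 : (1 : ℤ) ≤ 2 ^ K.k := one_le_pow₀ (by norm_num)
    have h3 : cw v ≤ 2 ^ K.k * cw v := le_mul_of_one_le_left (cw_nonneg v) h2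
    have h4 : (2 : ℤ) ^ v.sum * (3 ^ K.k - 2 ^ K.k) ≤ 2 ^ v.sum * 3 ^ K.k := by
      apply mul_le_mul_of_nonneg_left _ (by positivity)
      linarith
    have h5 : (2 : ℤ) ^ v.sum ≤ 3 ^ m := by
      calc (2 : ℤ) ^ v.sum ≤ 2 ^ m := pow_le_pow_right₀ (by norm_num) ((hD v hv).trans hm)
        _ ≤ 3 ^ m := pow_le_pow_left₀ (by norm_num) (by norm_num) m
    have h6 : (2 : ℤ) ^ v.sum * 3 ^ K.k ≤ 3 ^ m * 3 ^ K.k := mul_le_mul_of_nonneg_right h5 (by positivity)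
    have h7 : (3 : ℤ) ^ (K.k + (m + 1)) = 3 * (3 ^ m * 3 ^ K.k) := by ring
    have h8 : (0 : ℤ) < 3 ^ m * 3 ^ K.k := by positivity
    linarith
  have hcw : cw w = cw w' := by
    have b1 := bd w hw
    have b2 := bd w' hw'
    have n1 := cw_nonneg w
    have n2 := cw_nonneg w'
    have hz : cw w' - cw w = 0 := by
      apply Int.eq_zero_of_abs_lt_dvd d5
      rw [abs_lt]; constructor <;> linarith
    linarith
  exact cw_inj K.k w w' hl hl' (K.ge1 w hw) (K.ge1 w' hw') hs hcw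

/-- lower bound -/
theorem Hs_ge {n : ℕ} (hΘ : IsTh n Θ) {D m : ℕ} (hD : ∀ w ∈ K.A, w.sum ≤ D) (hm : D ≤ m) (hmn : m ≤ n)
    (Col : Finset (ℕ × ℕ)) {y : ℤ} (hcol : ∀ w ∈ K.A, col w y ∈ Col) (hy : ¬ (3 : ℤ) ∣ y) :
    K.c0 ≤ Hs K Θ Col m y := by
  have h1 : Hs K Θ Col m y = ∑ c ∈ Col, ∑ t ∈ range (3 ^ m), ∑ w ∈ K.A,
      (if col w y = c ∧ Θ w y % 3 ^ m = t then Real.negMulLog (K.κ w y) else 0) := by
    unfold Hs
    apply sum_congr rfl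
    intro c _
    apply sum_congr rfl
    intro t _
    unfold ms
    by_cases h : ∃ w ∈ K.A, (col w y = c ∧ Θ w y % 3 ^ m = t) ∧ K.κ w y ≠ 0
    · obtain ⟨w0, hw0, hc0, hk0⟩ := h
      have hz : ∀ w ∈ K.A, w ≠ w0 → (if col w y = c ∧ Θ w y % 3 ^ m = t then K.κ w y else 0) = 0 := by
        intro w hw hne
        by_cases hc : col w y = c ∧ Θ w y % 3 ^ m = t
        · rw [if_pos hc]
          by_contra hk
          exact hne (word_inj hΘ hD hm hmn hw hw0 hk hk0 (hc.1.trans hc0.1.symm) (hc.2.trans hc0.2.symm))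
        · rw [if_neg hc]
      rw [sum_eq_single w0 hz (fun h => absurd hw0 h), sum_eq_single w0]
      · rw [if_pos hc0, if_pos hc0]
      · intro w hw hne
        have := hz w hw hne
        by_cases hc : col w y = c ∧ Θ w y % 3 ^ m = t
        · rw [if_pos hc] at this
          rw [if_pos hc, this, Real.negMulLog_zero]
        · rw [if_neg hc]
      · intro h; exact absurd hw0 h
    · have hz : ∀ w ∈ K.A, (col w y = c ∧ Θ w y % 3 ^ m = t) → K.κ w y = 0 := by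
        intro w hw hc
        by_contra hk
        exact h ⟨w, hw, hc, hk⟩
      rw [sum_eq_zero, sum_eq_zero, Real.negMulLog_zero]
      · intro w hw
        split_ifs with hc
        · rw [hz w hw hc, Real.negMulLog_zero]
        · rfl
      · intro w hw
        split_ifs with hc
        · exact hz w hw hc
        · rfl
  rw [h1, sum_group (F := fun w _ _ => Real.negMulLog (K.κ w y)) Col y hcol m]
  exact K.ent y hy

end Pool.Agent.Helper9.Q1
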